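import Pool.Agent.W779.Morrey.Kernel

set_option autoImplicit false

open MeasureTheory Set Filter Topology

namespace Pool.Agent.W779.Morrey

/-- the gradient, `gr v x r l = ∂_l v_r (x)` -/
noncomputable def gr (v : V → V) (x : V) : E := fun r l => fderiv ℝ v x (Pi.single l 1) r

/-- The inequality of quasiconvexity for gradients of trigonometric polynomials. -/
def QCtrig (W : E → ℝ) : Prop :=
  ∀ (ι : Type) [Fintype ι] (F₀ : E) (k : ι → Fin 2 → ℤ) (c d : ι → V),
    W F₀ ≤ ∫ x in Icc (0 : V) 1, W (F₀ + Fam k (grk k c) (grk k d) 1 x)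

theorem continuous_gr {v : V → V} (hv : ContDiff ℝ 1 v) : Continuous (gr v) := by
  have h := hv.continuous_fderiv (by norm_num)
  refine continuous_pi fun r => continuous_pi fun l => ?_
  exact (continuous_apply r).comp (h.clm_apply continuous_const)

theorem ibp (φ : V → ℝ) (φ' : Fin 2 → V → ℝ) (hφ : ∀ x, HasFDerivAt φ (mk' fun j => φ' j x) x)
    (hφc : ∀ j, Continuous (φ' j)) (v : V → V) (hv : ContDiff ℝ 1 v)
    (h0 : ∀ x, (∃ i, x i ≤ 0 ∨ 1 ≤ x i) → v x = 0) (r l : Fin 2) :
    ∫ y in Icc (0 : V) 1, φ y * gr v y r l = - ∫ y in Icc (0 : V) 1, φ' l y * v y r := by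
  have hφcont : Continuous φ := continuous_iff_continuousAt.2 fun x => (hφ x).continuousAt
  have hvd : ∀ y, HasFDerivAt (fun y => v y r)
      ((ContinuousLinearMap.proj (R := ℝ) (φ := fun _ : Fin 2 => ℝ) r).comp (fderiv ℝ v y)) y :=
    fun y => (ContinuousLinearMap.proj (R := ℝ) (φ := fun _ : Fin 2 => ℝ) r).hasFDerivAt.comp y
      (hv.differentiable (by norm_num) y).hasFDerivAt
  have hvc : Continuous (fun y => (ContinuousLinearMap.proj (R := ℝ)
      (φ := fun _ : Fin 2 => ℝ) r).comp (fderiv ℝ v y)) :=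
    continuous_const.clm_comp (hv.continuous_fderiv (by norm_num))
  have hvr : Continuous (fun y => v y r) := (continuous_apply r).comp hv.continuous
  have h := integral_div_periodic
    (fun i y => (if i = l then 1 else 0 : ℝ) * (φ y * v y r))
    (fun i y => (if i = l then 1 else 0 : ℝ) • (φ y •
      ((ContinuousLinearMap.proj (R := ℝ) (φ := fun _ : Fin 2 => ℝ) r).comp (fderiv ℝ v y))
      + v y r • (mk' fun j => φ' j y)))
    (fun i y => ((hφ y).mul (hvd y)).const_mul _)
    (fun i => by
      refine Continuous.smul (f := fun _ : V => (if i = l then 1 else 0 : ℝ)) continuous_const ?_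
      exact (hφcont.smul hvc).add (hvr.smul (continuous_mk' φ' hφc)))
    (fun i x hx => by
      have e1 : v x = 0 := h0 x ⟨i, Or.inl hx.le⟩
      have e2 : v (x + Pi.single i 1) = 0 := h0 _ ⟨i, Or.inr (by simp [hx])⟩
      rw [e1, e2]
      simp)
  have h2 : ∀ y : V, (∑ i, ((if i = l then 1 else 0 : ℝ) • (φ y •
      ((ContinuousLinearMap.proj (R := ℝ) (φ := fun _ : Fin 2 => ℝ) r).comp (fderiv ℝ v y))
      + v y r • (mk' fun j => φ' j y))) (Pi.single i 1))
      = φ y * gr v y r l + φ' l y * v y r := by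
    intro y
    rw [Finset.sum_eq_single l]
    · simp only [if_true, one_smul, _root_.add_apply, FunLike.coe_smul, Pi.smul_apply, mk'_single,
        ContinuousLinearMap.comp_apply, ContinuousLinearMap.proj_apply, smul_eq_mul, gr]
      ring
    · intro i _ hi
      simp [hi]
    · simp
  simp only [h2] at h
  rw [integral_add] at h
  · linarith
  · refine Continuous.integrableOn_Icc ?_
    exact hφcont.mul ((continuous_apply l).comp ((continuous_apply r).comp (continuous_gr hv)))
  · exact ((hφc l).mul hvr).integrableOn_Icc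

/-- normalisation -/
noncomputable def Zn (n : ℕ) : ℝ := ∫ y in Icc (0 : V) 1, cc (0 - y) ^ n

/-- periodic convolution with the normalised kernel -/
noncomputable def Tn (n : ℕ) (g : V → E) (x : V) : E := fun r l =>
  (Zn n)⁻¹ * ∫ y in Icc (0 : V) 1, cc (x - y) ^ n * g y r l

theorem Zn_eq (n : ℕ) (x : V) : ∫ y in Icc (0 : V) 1, cc (x - y) ^ n = Zn n :=
  integral_cosSum_shift (cosSum_cc.pow n) x

theorem Tn_repr (n : ℕ) (v : V → V) (hv : ContDiff ℝ 1 v)
    (h0 : ∀ x, (∃ i, x i ≤ 0 ∨ 1 ≤ x i) → v x = 0) :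
    ∃ (ι : Type) (_ : Fintype ι) (k : ι → Fin 2 → ℤ) (c d : ι → V), ∀ x,
      Tn n (gr v) x = Fam k (grk k c) (grk k d) 1 x := by
  obtain ⟨ι, inst, k, γ, hk⟩ := cosSum_cc.pow n
  refine ⟨ι, inst, k,
    fun i r => (Zn n)⁻¹ * γ i * (2 * Real.pi) * ∫ y in Icc (0 : V) 1, Real.sin (ph (k i) y) * v y r,
    fun i r => -((Zn n)⁻¹ * γ i * (2 * Real.pi)
      * ∫ y in Icc (0 : V) 1, Real.cos (ph (k i) y) * v y r), fun x => ?_⟩
  ext r l
  have hg : Continuous (fun y => gr v y r l) :=
    (continuous_apply l).comp ((continuous_apply r).comp (continuous_gr hv))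
  have hvr : Continuous (fun y => v y r) := (continuous_apply r).comp hv.continuous
  have e1 : ∀ i, ∫ y in Icc (0 : V) 1, Real.cos (ph (k i) y) * gr v y r l
      = 2 * Real.pi * k i l * ∫ y in Icc (0 : V) 1, Real.sin (ph (k i) y) * v y r := by
    intro i
    rw [ibp (fun y => Real.cos (ph (k i) y)) (fun j y => -(2 * Real.pi * k i j) *
      Real.sin (ph (k i) y)) (hasFDerivAt_cos_ph (k i)) (fun j => continuous_const.mul
        (Real.continuous_sin.comp (continuous_ph (k i)))) v hv h0 r l]
    rw [← integral_neg, ← integral_const_mul]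
    refine integral_congr_ae (Eventually.of_forall fun y => ?_)
    simp only
    ring
  have e2 : ∀ i, ∫ y in Icc (0 : V) 1, Real.sin (ph (k i) y) * gr v y r l
      = -(2 * Real.pi * k i l * ∫ y in Icc (0 : V) 1, Real.cos (ph (k i) y) * v y r) := by
    intro i
    rw [ibp (fun y => Real.sin (ph (k i) y)) (fun j y => (2 * Real.pi * k i j) *
      Real.cos (ph (k i) y)) (hasFDerivAt_sin_ph (k i)) (fun j => continuous_const.mul
        (Real.continuous_cos.comp (continuous_ph (k i)))) v hv h0 r l]
    rw [← integral_const_mul]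
    refine congrArg Neg.neg (integral_congr_ae (Eventually.of_forall fun y => ?_))
    simp only
    ring
  have e3 : ∫ y in Icc (0 : V) 1, cc (x - y) ^ n * gr v y r l
      = ∑ i, γ i * (Real.cos (ph (k i) x) * ∫ y in Icc (0 : V) 1, Real.cos (ph (k i) y) * gr v y r l)
        + ∑ i, γ i * (Real.sin (ph (k i) x) *
          ∫ y in Icc (0 : V) 1, Real.sin (ph (k i) y) * gr v y r l) := by
    have e4 : ∀ y, cc (x - y) ^ n * gr v y r l
        = ∑ i, (γ i * Real.cos (ph (k i) x) * (Real.cos (ph (k i) y) * gr v y r l)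
          + γ i * Real.sin (ph (k i) x) * (Real.sin (ph (k i) y) * gr v y r l)) := by
      intro y
      have hk' : cc (x - y) ^ n = ∑ i, γ i * Real.cos (ph (k i) (x - y)) := hk (x - y)
      rw [hk', Finset.sum_mul]
      refine Finset.sum_congr rfl fun i _ => ?_
      rw [ph_sub', Real.cos_sub]
      ring
    simp only [e4]
    have c1 : ∀ i, Continuous (fun y => Real.cos (ph (k i) y) * gr v y r l) := fun i =>
      (Real.continuous_cos.comp (continuous_ph (k i))).mul hg
    have c2 : ∀ i, Continuous (fun y => Real.sin (ph (k i) y) * gr v y r l) := fun i =>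
      (Real.continuous_sin.comp (continuous_ph (k i))).mul hg
    rw [integral_finsetSum]
    · rw [← Finset.sum_add_distrib]
      refine Finset.sum_congr rfl fun i _ => ?_
      rw [integral_add, integral_const_mul, integral_const_mul]
      · ring
      · exact (continuous_const.mul (c1 i)).integrableOn_Icc
      · exact (continuous_const.mul (c2 i)).integrableOn_Icc
    · intro i _
      exact ((continuous_const.mul (c1 i)).add (continuous_const.mul (c2 i))).integrableOn_Icc
  simp only [Tn, Fam, e3, e1, e2, grk, tm, one_pow, one_smul, Finset.sum_apply, Pi.add_apply,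
    Pi.smul_apply, smul_eq_mul]
  rw [mul_add, Finset.mul_sum, Finset.mul_sum, ← Finset.sum_add_distrib]
  refine Finset.sum_congr rfl fun i _ => ?_
  ring

theorem Tn_tendsto {g : V → E} (hg : Continuous g) {x : V} (hx : ∀ i, 0 < x i ∧ x i < 1) :
    Tendsto (fun n => Tn n g x) atTop (𝓝 (g x)) := by
  rw [tendsto_pi_nhds]
  intro r
  rw [tendsto_pi_nhds]
  intro l
  have hgc : Continuous (fun y => g y r l) :=
    (continuous_apply l).comp ((continuous_apply r).comp hg)
  have hin : x ∈ interior (Icc (0 : V) 1) := by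
    rw [mem_interior]
    refine ⟨Set.pi univ (fun _ => Ioo (0:ℝ) 1), fun y hy => ?_, isOpen_set_pi finite_univ
      (fun _ _ => isOpen_Ioo), fun i _ => hx i⟩
    exact ⟨fun i => (hy i (mem_univ i)).1.le, fun i => (hy i (mem_univ i)).2.le⟩
  have h := tendsto_setIntegral_pow_smul_of_unique_maximum_of_isCompact_of_continuousOn
    (μ := (volume : Measure V)) (s := Icc (0 : V) 1) (x₀ := x) (c := fun y => cc (x - y))
    (g := fun y => g y r l) isCompact_Icc
    (continuous_cc.comp (continuous_const.sub continuous_id)).continuousOn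
    (fun y hy hyx => by
      simp only [sub_self, cc_zero]
      refine cc_lt (sub_ne_zero.2 (Ne.symm hyx)) fun j => ?_
      have h1 := hx j
      have h2 := hy.1 j
      have h3 := hy.2 j
      simp only [Pi.zero_apply, Pi.one_apply] at h2 h3
      rw [Pi.sub_apply, abs_lt]
      constructor <;> linarith [h1.1, h1.2])
    (fun y _ => cc_nonneg _) (by simp [cc_zero]) (subset_closure hin) hgc.continuousOn
  simp only [smul_eq_mul, Zn_eq] at h
  exact h

theorem Zn_pos (n : ℕ) : 0 < Zn n := by
  unfold Zn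
  have hc : Continuous (fun y : V => cc (0 - y) ^ n) :=
    (continuous_cc.comp (continuous_const.sub continuous_id)).pow n
  rw [setIntegral_pos_iff_support_of_nonneg_ae]
  · have h1 : Metric.ball (0 : V) (1 / 4) ∩ Icc (0:V) 1 ⊆
        Function.support (fun y : V => cc (0 - y) ^ n) ∩ Icc (0 : V) 1 := by
      rintro y ⟨hy, hy2⟩
      refine ⟨?_, hy2⟩
      rw [Function.mem_support]
      refine pow_ne_zero _ ?_
      rw [Metric.mem_ball, dist_zero_right] at hy
      have hb : ∀ j, |y j| < 1 / 4 := fun j => lt_of_le_of_lt (norm_le_pi_norm y j) hy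
      have hcos : ∀ j, 0 < Real.cos (2 * Real.pi * y j) := by
        intro j
        have hpi := Real.pi_pos
        have := hb j
        rw [abs_lt] at this
        refine Real.cos_pos_of_mem_Ioo ⟨by nlinarith, by nlinarith⟩
      have hcos' : ∀ j, 0 < Real.cos (2 * Real.pi * (0 - y) j) := by
        intro j
        have e : 2 * Real.pi * (0 - y) j = -(2 * Real.pi * y j) := by simp
        rw [e, Real.cos_neg]
        exact hcos j
      unfold cc
      have h0 := hcos' 0
      have h1 := hcos' 1
      positivity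
    refine lt_of_lt_of_le ?_ (measure_mono h1)
    have h2 : Set.pi univ (fun _ : Fin 2 => Ioo (0:ℝ) (1/4)) ⊆
        Metric.ball (0 : V) (1 / 4) ∩ Icc (0:V) 1 := by
      intro y hy
      refine ⟨?_, fun i => (hy i (mem_univ i)).1.le, fun i => by
        have := (hy i (mem_univ i)).2
        simp only [Pi.one_apply]; linarith⟩
      rw [Metric.mem_ball, dist_zero_right, pi_norm_lt_iff (by norm_num)]
      intro i
      have h3 := hy i (mem_univ i)
      rw [Real.norm_eq_abs, abs_of_pos h3.1]
      exact h3.2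
    refine lt_of_lt_of_le ?_ (measure_mono h2)
    rw [Real.volume_pi_Ioo]
    simp only [Finset.prod_const, Finset.card_univ, Fintype.card_fin, sub_zero]
    exact ENNReal.pow_pos (ENNReal.ofReal_pos.2 (by norm_num)) _
  · exact Eventually.of_forall fun y => pow_nonneg (cc_nonneg _) _
  · exact hc.integrableOn_Icc

theorem Tn_bound (n : ℕ) {g : V → E} (hg : Continuous g) {M : ℝ}
    (hM : ∀ y r l, |g y r l| ≤ M) (x : V) (r l : Fin 2) : |Tn n g x r l| ≤ M := by
  have hz := Zn_pos n
  have hgc : Continuous (fun y => g y r l) :=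
    (continuous_apply l).comp ((continuous_apply r).comp hg)
  have hc : Continuous (fun y : V => cc (x - y) ^ n) :=
    (continuous_cc.comp (continuous_const.sub continuous_id)).pow n
  have h1 : |∫ y in Icc (0 : V) 1, cc (x - y) ^ n * g y r l| ≤ Zn n * M := by
    refine (abs_integral_le_integral_abs).trans ?_
    rw [← Zn_eq n x, ← integral_mul_const]
    refine integral_mono ?_ ?_ fun y => ?_
    · exact (hc.mul hgc).abs.integrableOn_Icc
    · exact (hc.mul continuous_const).integrableOn_Icc
    · simp only [abs_mul]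
      rw [abs_of_nonneg (pow_nonneg (cc_nonneg _) _)]
      exact mul_le_mul_of_nonneg_left (hM y r l) (pow_nonneg (cc_nonneg _) _)
  unfold Tn
  rw [abs_mul, abs_of_pos (inv_pos.2 hz)]
  calc (Zn n)⁻¹ * |∫ y in Icc (0 : V) 1, cc (x - y) ^ n * g y r l|
      ≤ (Zn n)⁻¹ * (Zn n * M) := mul_le_mul_of_nonneg_left h1 (inv_pos.2 hz).le
    _ = M := by field_simp

theorem ae_interior : ∀ᵐ x ∂(volume.restrict (Icc (0 : V) 1)), ∀ i, 0 < x i ∧ x i < 1 := by
  have h := (Measure.univ_pi_Ioo_ae_eq_Icc (μ := fun _ : Fin 2 => (volume : Measure ℝ))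
    (f := (0 : V)) (g := (1 : V)))
  rw [← volume_pi] at h
  have h2 : ∀ᵐ x ∂(volume.restrict (Set.pi univ fun i => Ioo ((0 : V) i) ((1 : V) i))),
      ∀ i, 0 < x i ∧ x i < 1 := by
    filter_upwards [ae_restrict_mem (MeasurableSet.univ_pi fun i => measurableSet_Ioo)] with x hx i
    exact hx i (mem_univ i)
  rwa [Measure.restrict_congr_set h] at h2

theorem W_bound {W : E → ℝ} (hW : Continuous W) (F₀ : E) (M : ℝ) :
    ∃ C, ∀ G : E, (∀ r l, |G r l| ≤ M) → |W (F₀ + G)| ≤ C := by
  have hK : IsCompact (Icc (fun _ _ => -M : E) (fun _ _ => M)) := isCompact_Icc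
  obtain ⟨C, hC⟩ := hK.exists_bound_of_continuousOn
    (f := fun G => W (F₀ + G)) (hW.comp (continuous_const.add continuous_id)).continuousOn
  refine ⟨C, fun G hG => hC G ⟨fun r l => ?_, fun r l => ?_⟩⟩
  · exact (abs_le.1 (hG r l)).1
  · exact (abs_le.1 (hG r l)).2

theorem gr_bound {v : V → V} {K : NNReal} (hK : LipschitzWith K v) (x : V) (r l : Fin 2) :
    |gr v x r l| ≤ K := by
  have h1 : ‖fderiv ℝ v x‖ ≤ K := norm_fderiv_le_of_lipschitz ℝ hK
  have h2 : ‖fderiv ℝ v x (Pi.single l 1)‖ ≤ K * 1 := by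
    refine (ContinuousLinearMap.le_opNorm _ _).trans ?_
    refine mul_le_mul h1 ?_ (norm_nonneg _) K.2
    refine (pi_norm_le_iff_of_nonneg zero_le_one).2 fun k => ?_
    rw [Pi.single_apply]
    split_ifs <;> simp
  have h3 := norm_le_pi_norm (fderiv ℝ v x (Pi.single l 1)) r
  rw [Real.norm_eq_abs] at h3
  unfold gr
  linarith

theorem C1_case {W : E → ℝ} (hW : Continuous W) (h : QCtrig W) (F₀ : E) (v : V → V)
    (hv : ContDiff ℝ 1 v) {K : NNReal} (hK : LipschitzWith K v)
    (h0 : ∀ x, (∃ i, x i ≤ 0 ∨ 1 ≤ x i) → v x = 0) :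
    W F₀ ≤ ∫ x in Icc (0 : V) 1, W (F₀ + gr v x) := by
  have hg := continuous_gr hv
  have hb := gr_bound hK
  obtain ⟨C, hC⟩ := W_bound hW F₀ (K : ℝ)
  have hlim : Tendsto (fun n => ∫ x in Icc (0 : V) 1, W (F₀ + Tn n (gr v) x)) atTop
      (𝓝 (∫ x in Icc (0 : V) 1, W (F₀ + gr v x))) := by
    refine tendsto_integral_of_dominated_convergence (fun _ => C) ?_ ?_ ?_ ?_
    · intro n
      obtain ⟨ι, _, k, c, d, hr⟩ := Tn_repr n v hv h0
      simp only [hr]
      exact (hW.comp (continuous_const.add (continuous_Fam k _ _ 1))).aestronglyMeasurable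
    · exact continuous_const.integrableOn_Icc
    · intro n
      refine Eventually.of_forall fun x => ?_
      exact hC _ fun r l => Tn_bound n hg hb x r l
    · filter_upwards [ae_interior] with x hx
      exact ((hW.comp (continuous_const.add continuous_id)).tendsto _).comp (Tn_tendsto hg hx)
  refine ge_of_tendsto' hlim fun n => ?_
  obtain ⟨ι, _, k, c, d, hr⟩ := Tn_repr n v hv h0
  simp only [hr]
  exact h ι F₀ k c d

end Pool.Agent.W779.Morrey
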