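import Pool.Agent.W779.Morrey.BeurlingMult

set_option autoImplicit false

open MeasureTheory Set Filter Topology
open scoped SchwartzMap FourierTransform

namespace Pool.Agent.W779.Morrey

variable (g : 𝓢(ℂ, ℂ))

theorem dz_pot (n : ℕ) (z : ℂ) :
    dz (𝓕⁻ (Hs g n) : 𝓢(ℂ, ℂ)) z = (𝓕⁻ (S1 g n) : 𝓢(ℂ, ℂ)) z := by
  unfold dz S1
  rw [fderiv_pot, fderiv_pot, FourierTransform.fourierInv_smul, FourierTransform.fourierInv_add,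
    FourierTransform.fourierInv_smul]
  simp only [_root_.smul_apply, _root_.add_apply, smul_eq_mul]
  ring

theorem dzbar_pot (n : ℕ) (z : ℂ) :
    dzbar (𝓕⁻ (Hs g n) : 𝓢(ℂ, ℂ)) z = (𝓕⁻ (S2 g n) : 𝓢(ℂ, ℂ)) z := by
  unfold dzbar S2
  rw [fderiv_pot, fderiv_pot, FourierTransform.fourierInv_smul, FourierTransform.fourierInv_add,
    FourierTransform.fourierInv_smul]
  simp only [_root_.smul_apply, _root_.add_apply, smul_eq_mul]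

theorem ineq_n (n : ℕ) :
    ∫ z, ‖(𝓕⁻ (S1 g n) : 𝓢(ℂ, ℂ)) z‖ ^ 4 ≤ 98 * ∫ z, ‖(𝓕⁻ (S2 g n) : 𝓢(ℂ, ℂ)) z‖ ^ 4 := by
  have h := beurling_schwartz (𝓕⁻ (Hs g n) : 𝓢(ℂ, ℂ))
  simp only [dz_pot, dzbar_pot] at h
  exact h

theorem eLpNorm_four (u : 𝓢(ℂ, ℂ)) :
    eLpNorm u 4 (volume : Measure ℂ) = ENNReal.ofReal ((∫ z, ‖u z‖ ^ 4) ^ (1 / 4 : ℝ)) := by
  rw [(u.memLp 4 volume).eLpNorm_eq_integral_rpow_norm (by norm_num) (by norm_num)]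
  have e : (4 : ENNReal).toReal = ((4:ℕ) : ℝ) := by norm_num
  rw [e]
  simp only [Real.rpow_natCast]
  norm_num

theorem ineq_eLp (n : ℕ) :
    eLpNorm (𝓕⁻ (S1 g n) : 𝓢(ℂ, ℂ)) 4 (volume : Measure ℂ)
      ≤ ENNReal.ofReal ((98 : ℝ) ^ (1 / 4 : ℝ)) *
        eLpNorm (𝓕⁻ (S2 g n) : 𝓢(ℂ, ℂ)) 4 (volume : Measure ℂ) := by
  rw [eLpNorm_four, eLpNorm_four, ← ENNReal.ofReal_mul (by positivity),
    ← Real.mul_rpow (by norm_num) (by positivity)]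
  refine ENNReal.ofReal_le_ofReal (Real.rpow_le_rpow (by positivity) (ineq_n g n) (by norm_num))

/-- the remainder on the Fourier side -/
noncomputable def Rs (n : ℕ) : 𝓢(ℂ, ℂ) := S2 g n - g

theorem Rs_apply (n : ℕ) (ξ : ℂ) : Rs g n ξ = (((mcut n ξ : ℝ) : ℂ) - 1) * g ξ := by
  unfold Rs
  rw [_root_.sub_apply, S2_apply]
  ring

theorem Rs_norm (n : ℕ) (ξ : ℂ) : ‖Rs g n ξ‖ ≤ ‖g ξ‖ := by
  rw [Rs_apply, norm_mul]
  refine mul_le_of_le_one_left (norm_nonneg _) ?_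
  have h := mcut_mem n ξ
  have e : (((mcut n ξ : ℝ) : ℂ) - 1) = ((mcut n ξ - 1 : ℝ) : ℂ) := by push_cast; ring
  rw [e, Complex.norm_real, Real.norm_eq_abs, abs_le]
  constructor <;> linarith [h.1, h.2]

theorem Rs_tendsto {ξ : ℂ} (hξ : ξ ≠ 0) : Tendsto (fun n => Rs g n ξ) atTop (𝓝 0) := by
  refine tendsto_const_nhds.congr' ?_
  filter_upwards [mcut_tendsto hξ] with n hn
  rw [Rs_apply, hn]
  simp

theorem Rs_int_one : Tendsto (fun n => ∫ ξ, ‖Rs g n ξ‖) atTop (𝓝 0) := by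
  have h := tendsto_integral_of_dominated_convergence (μ := (volume : Measure ℂ))
    (F := fun n ξ => ‖Rs g n ξ‖) (f := fun _ => (0:ℝ)) (fun ξ => ‖g ξ‖)
    (fun n => (Rs g n).continuous.norm.aestronglyMeasurable) g.integrable.norm
    (fun n => Eventually.of_forall fun ξ => by simpa using Rs_norm g n ξ)
    (by
      filter_upwards [Measure.ae_ne (volume : Measure ℂ) (0 : ℂ)] with ξ hξ
      simpa using (Rs_tendsto g hξ).norm)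
  simpa using h

theorem Rs_int_two : Tendsto (fun n => ∫ ξ, ‖Rs g n ξ‖ ^ 2) atTop (𝓝 0) := by
  have h := tendsto_integral_of_dominated_convergence (μ := (volume : Measure ℂ))
    (F := fun n ξ => ‖Rs g n ξ‖ ^ 2) (f := fun _ => (0:ℝ)) (fun ξ => ‖g ξ‖ ^ 2)
    (fun n => ((Rs g n).continuous.norm.pow 2).aestronglyMeasurable)
    ((g.memLp 2 volume).integrable_norm_pow (by norm_num))
    (fun n => Eventually.of_forall fun ξ => by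
      rw [Real.norm_eq_abs, abs_of_nonneg (by positivity)]
      exact pow_le_pow_left₀ (norm_nonneg _) (Rs_norm g n ξ) 2)
    (by
      filter_upwards [Measure.ae_ne (volume : Measure ℂ) (0 : ℂ)] with ξ hξ
      simpa using ((Rs_tendsto g hξ).norm).pow 2)
  simpa using h

theorem sup_bound (u : 𝓢(ℂ, ℂ)) (z : ℂ) : ‖(𝓕⁻ u : 𝓢(ℂ, ℂ)) z‖ ≤ ∫ ξ, ‖u ξ‖ := by
  rw [SchwartzMap.fourierInv_coe, Real.fourierInv_eq]
  refine (norm_integral_le_integral_norm _).trans (le_of_eq ?_)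
  refine integral_congr_ae (Eventually.of_forall fun ξ => ?_)
  simp

theorem L2_eq (u : 𝓢(ℂ, ℂ)) : ∫ z, ‖(𝓕⁻ u : 𝓢(ℂ, ℂ)) z‖ ^ 2 = ∫ ξ, ‖u ξ‖ ^ 2 := by
  have h := SchwartzMap.integral_norm_sq_fourier (𝓕⁻ u : 𝓢(ℂ, ℂ))
  rw [FourierTransform.fourier_fourierInv_eq] at h
  exact h.symm

theorem L4_bound (u : 𝓢(ℂ, ℂ)) :
    ∫ z, ‖(𝓕⁻ u : 𝓢(ℂ, ℂ)) z‖ ^ 4 ≤ (∫ ξ, ‖u ξ‖) ^ 2 * ∫ ξ, ‖u ξ‖ ^ 2 := by
  rw [← L2_eq u, ← integral_const_mul]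
  refine integral_mono ?_ ?_ fun z => ?_
  · exact ((𝓕⁻ u : 𝓢(ℂ, ℂ)).memLp 4 volume).integrable_norm_pow (by norm_num)
  · exact (((𝓕⁻ u : 𝓢(ℂ, ℂ)).memLp 2 volume).integrable_norm_pow (by norm_num)).const_mul _
  · simp only
    have h := sup_bound u z
    have : ‖(𝓕⁻ u : 𝓢(ℂ, ℂ)) z‖ ^ 4
        = ‖(𝓕⁻ u : 𝓢(ℂ, ℂ)) z‖ ^ 2 * ‖(𝓕⁻ u : 𝓢(ℂ, ℂ)) z‖ ^ 2 := by ring
    rw [this]
    exact mul_le_mul_of_nonneg_right (pow_le_pow_left₀ (norm_nonneg _) h 2) (by positivity)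

theorem rem_tendsto :
    Tendsto (fun n => eLpNorm (𝓕⁻ (Rs g n) : 𝓢(ℂ, ℂ)) 4 (volume : Measure ℂ)) atTop (𝓝 0) := by
  simp only [eLpNorm_four]
  have h1 : Tendsto (fun n => (∫ ξ, ‖Rs g n ξ‖) ^ 2 * ∫ ξ, ‖Rs g n ξ‖ ^ 2) atTop (𝓝 0) := by
    simpa using ((Rs_int_one g).pow 2).mul (Rs_int_two g)
  have h2 : Tendsto (fun n => ∫ z, ‖(𝓕⁻ (Rs g n) : 𝓢(ℂ, ℂ)) z‖ ^ 4) atTop (𝓝 0) :=
    squeeze_zero (fun n => by positivity) (fun n => L4_bound (Rs g n)) h1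
  have h3 := h2.rpow_const (p := (1 / 4 : ℝ)) (Or.inr (by norm_num))
  rw [Real.zero_rpow (by norm_num)] at h3
  have h4 := ENNReal.tendsto_ofReal h3
  simpa using h4

theorem S1_pointwise (z : ℂ) :
    Tendsto (fun n => (𝓕⁻ (S1 g n) : 𝓢(ℂ, ℂ)) z) atTop
      (𝓝 (𝓕⁻ (fun ξ : ℂ => starRingEnd ℂ ξ / ξ * g ξ) z)) := by
  simp only [SchwartzMap.fourierInv_coe, Real.fourierInv_eq]
  have hq : ∀ ξ : ℂ, ‖starRingEnd ℂ ξ / ξ‖ ≤ 1 := by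
    intro ξ
    rw [norm_div, RCLike.norm_conj]
    exact div_self_le_one _
  refine tendsto_integral_of_dominated_convergence (fun ξ => ‖g ξ‖) (fun n => ?_)
    g.integrable.norm (fun n => Eventually.of_forall fun ξ => ?_) ?_
  · have hc : Continuous (fun ξ : ℂ => (Real.fourierChar (inner ℝ ξ z)) • (S1 g n) ξ) := by
      have := (S1 g n).continuous
      fun_prop
    exact hc.aestronglyMeasurable
  · rw [S1_apply]
    have h := mcut_mem n ξ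
    simp only [Circle.norm_smul, norm_mul, Complex.norm_real, Real.norm_eq_abs, abs_of_nonneg h.1]
    calc ‖starRingEnd ℂ ξ / ξ‖ * (mcut n ξ * ‖g ξ‖) ≤ 1 * (1 * ‖g ξ‖) := by
          refine mul_le_mul (hq ξ) (mul_le_mul_of_nonneg_right h.2 (norm_nonneg _))
            (mul_nonneg h.1 (norm_nonneg _)) zero_le_one
      _ = ‖g ξ‖ := by ring
  · filter_upwards [Measure.ae_ne (volume : Measure ℂ) (0 : ℂ)] with ξ hξ
    refine tendsto_const_nhds.congr' ?_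
    filter_upwards [mcut_tendsto hξ] with n hn
    rw [S1_apply, hn]
    simp

/-- **The Beurling transform on `L⁴`.** -/
theorem beurling_norm (f : 𝓢(ℂ, ℂ)) :
    eLpNorm (fun z => 𝓕⁻ (fun ξ : ℂ => starRingEnd ℂ ξ / ξ * 𝓕 (f : ℂ → ℂ) ξ) z) 4
        (volume : Measure ℂ)
      ≤ ENNReal.ofReal ((98 : ℝ) ^ (1 / 4 : ℝ)) * eLpNorm f 4 (volume : Measure ℂ) := by
  set g : 𝓢(ℂ, ℂ) := 𝓕 f with hg
  have hgf : (𝓕⁻ g : 𝓢(ℂ, ℂ)) = f := by rw [hg, FourierTransform.fourierInv_fourier_eq]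
  have e0 : ∀ ξ, 𝓕 (f : ℂ → ℂ) ξ = g ξ := fun ξ => by rw [hg, SchwartzMap.fourier_coe]
  simp only [e0]
  have hB : ∀ n, eLpNorm (𝓕⁻ (S2 g n) : 𝓢(ℂ, ℂ)) 4 (volume : Measure ℂ)
      ≤ eLpNorm f 4 (volume : Measure ℂ)
        + eLpNorm (𝓕⁻ (Rs g n) : 𝓢(ℂ, ℂ)) 4 (volume : Measure ℂ) := by
    intro n
    have e1 : S2 g n = g + Rs g n := by unfold Rs; abel
    have e2 : ((𝓕⁻ (S2 g n) : 𝓢(ℂ, ℂ)) : ℂ → ℂ)
        = (f : ℂ → ℂ) + ((𝓕⁻ (Rs g n) : 𝓢(ℂ, ℂ)) : ℂ → ℂ) := by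
      rw [e1, FourierTransform.fourierInv_add, hgf]
      rfl
    rw [e2]
    exact eLpNorm_add_le f.continuous.aestronglyMeasurable
      (𝓕⁻ (Rs g n) : 𝓢(ℂ, ℂ)).continuous.aestronglyMeasurable (by norm_num)
  have hA : ∀ n, eLpNorm (𝓕⁻ (S1 g n) : 𝓢(ℂ, ℂ)) 4 (volume : Measure ℂ)
      ≤ ENNReal.ofReal ((98 : ℝ) ^ (1 / 4 : ℝ)) * (eLpNorm f 4 (volume : Measure ℂ)
        + eLpNorm (𝓕⁻ (Rs g n) : 𝓢(ℂ, ℂ)) 4 (volume : Measure ℂ)) := fun n =>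
    (ineq_eLp g n).trans (mul_le_mul_right (hB n) _)
  refine (Lp.eLpNorm_lim_le_liminf_eLpNorm
    (f := fun n => ((𝓕⁻ (S1 g n) : 𝓢(ℂ, ℂ)) : ℂ → ℂ))
    (fun n => (𝓕⁻ (S1 g n) : 𝓢(ℂ, ℂ)).continuous.aestronglyMeasurable) _
    (Eventually.of_forall fun z => S1_pointwise g z)).trans ?_
  have hlim : Tendsto (fun n => ENNReal.ofReal ((98 : ℝ) ^ (1 / 4 : ℝ)) *
      (eLpNorm f 4 (volume : Measure ℂ)
        + eLpNorm (𝓕⁻ (Rs g n) : 𝓢(ℂ, ℂ)) 4 (volume : Measure ℂ))) atTop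
      (𝓝 (ENNReal.ofReal ((98 : ℝ) ^ (1 / 4 : ℝ)) * (eLpNorm f 4 (volume : Measure ℂ) + 0))) :=
    ENNReal.Tendsto.const_mul (tendsto_const_nhds.add (rem_tendsto g))
      (Or.inr ENNReal.ofReal_ne_top)
  rw [add_zero] at hlim
  rw [← hlim.liminf_eq]
  exact liminf_le_liminf (Eventually.of_forall hA)

end Pool.Agent.W779.Morrey
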