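import Pool.Agent.W779.Morrey.Iso

set_option autoImplicit false

open MeasureTheory Set Filter Topology

namespace Pool.Agent.W779.Morrey

/-- the plane as complex numbers -/
noncomputable def toC : V →L[ℝ] ℂ :=
  (ContinuousLinearMap.proj (R := ℝ) (φ := fun _ : Fin 2 => ℝ) 0).smulRight (1 : ℂ)
    + (ContinuousLinearMap.proj (R := ℝ) (φ := fun _ : Fin 2 => ℝ) 1).smulRight Complex.I

/-- complex numbers as the plane -/
noncomputable def ofC : ℂ →L[ℝ] V := ContinuousLinearMap.pi ![Complex.reCLM, Complex.imCLM]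

theorem toC_apply (x : V) : toC x = (x 0 : ℂ) + (x 1 : ℂ) * Complex.I := by
  simp [toC]

theorem ofC_zero (z : ℂ) : ofC z 0 = z.re := rfl
theorem ofC_one (z : ℂ) : ofC z 1 = z.im := rfl

theorem toC_single_zero : toC (Pi.single 0 1) = 1 := by simp [toC_apply]
theorem toC_single_one : toC (Pi.single 1 1) = Complex.I := by simp [toC_apply]

theorem integral_toC (g : ℂ → ℝ) : ∫ z, g z = ∫ x : V, g (toC x) := by
  have h := (Complex.volume_preserving_equiv_pi.symm).integral_comp'
    (f := Complex.measurableEquivPi.symm) (g := g)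
  rw [← h]
  refine integral_congr_ae (Eventually.of_forall fun x => ?_)
  simp only
  congr 1
  rw [toC_apply]
  rfl

/-- the holomorphic derivative -/
noncomputable def dz (f : ℂ → ℂ) (z : ℂ) : ℂ :=
  (1 / 2 : ℂ) * (fderiv ℝ f z 1 - Complex.I * fderiv ℝ f z Complex.I)

/-- the antiholomorphic derivative -/
noncomputable def dzbar (f : ℂ → ℂ) (z : ℂ) : ℂ :=
  (1 / 2 : ℂ) * (fderiv ℝ f z 1 + Complex.I * fderiv ℝ f z Complex.I)

theorem gr_comp {f : ℂ → ℂ} (hf : ContDiff ℝ 1 f) (x : V) :
    gr (fun x => ofC (f (toC x))) x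
      = ![![(fderiv ℝ f (toC x) 1).re, (fderiv ℝ f (toC x) Complex.I).re],
        ![(fderiv ℝ f (toC x) 1).im, (fderiv ℝ f (toC x) Complex.I).im]] := by
  have h1 : HasFDerivAt f (fderiv ℝ f (toC x)) (toC x) :=
    (hf.differentiable (by norm_num) _).hasFDerivAt
  have h2 : HasFDerivAt (fun x => ofC (f (toC x))) (ofC.comp ((fderiv ℝ f (toC x)).comp toC)) x :=
    ofC.hasFDerivAt.comp x (h1.comp x toC.hasFDerivAt)
  funext r l
  unfold gr
  rw [h2.fderiv]
  fin_cases r <;> fin_cases l
  · change ofC (fderiv ℝ f (toC x) (toC (Pi.single 0 1))) 0 = _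
    rw [toC_single_zero]; rfl
  · change ofC (fderiv ℝ f (toC x) (toC (Pi.single 1 1))) 0 = _
    rw [toC_single_one]; rfl
  · change ofC (fderiv ℝ f (toC x) (toC (Pi.single 0 1))) 1 = _
    rw [toC_single_zero]; rfl
  · change ofC (fderiv ℝ f (toC x) (toC (Pi.single 1 1))) 1 = _
    rw [toC_single_one]; rfl

theorem pP_gr {f : ℂ → ℂ} (hf : ContDiff ℝ 1 f) (x : V) :
    pP (gr (fun x => ofC (f (toC x))) x) = ‖dz f (toC x)‖ ^ 2 := by
  rw [gr_comp hf, ← Complex.normSq_eq_norm_sq, Complex.normSq_apply]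
  simp [pP, a1_apply, a2_apply, dz]
  ring

theorem pQ_gr {f : ℂ → ℂ} (hf : ContDiff ℝ 1 f) (x : V) :
    pQ (gr (fun x => ofC (f (toC x))) x) = ‖dzbar f (toC x)‖ ^ 2 := by
  rw [gr_comp hf, ← Complex.normSq_eq_norm_sq, Complex.normSq_apply]
  simp [pQ, b1_apply, b2_apply, dzbar]
  ring

theorem beurling_four (f : ℂ → ℂ) (hf : ContDiff ℝ 1 f) (hc : HasCompactSupport f) :
    ∫ z, ‖dzbar f z‖ ^ 4 ≤ 98 * ∫ z, ‖dz f z‖ ^ 4 := by
  set ϑ : V → V := fun x => ofC (f (toC x)) with hϑ
  have hϑd : ContDiff ℝ 1 ϑ := ofC.contDiff.comp (hf.comp toC.contDiff)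
  -- compact support
  obtain ⟨R, hR⟩ := hc.isCompact.isBounded.subset_closedBall (0 : ℂ)
  have hzero : ∀ z : ℂ, R < ‖z‖ → f z = 0 := by
    intro z hz
    by_contra hne
    have h1 : z ∈ tsupport f := subset_tsupport f hne
    have h2 := hR h1
    rw [Metric.mem_closedBall, dist_zero_right] at h2
    linarith
  have hnorm : ∀ (x : V) (i : Fin 2), |x i| ≤ ‖toC x‖ := by
    intro x i
    rw [toC_apply]
    fin_cases i
    · have := Complex.abs_re_le_norm ((x 0 : ℂ) + (x 1 : ℂ) * Complex.I)
      simpa using this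
    · have := Complex.abs_im_le_norm ((x 0 : ℂ) + (x 1 : ℂ) * Complex.I)
      simpa using this
  set Ω : Set V := Metric.ball 0 (|R| + 1) with hΩ
  have hoff : ∀ x, x ∉ Ω → f (toC x) = 0 := by
    intro x hx
    refine hzero _ ?_
    rw [hΩ, Metric.mem_ball, dist_zero_right, not_lt] at hx
    by_contra hcon
    push Not at hcon
    have h1 : ‖x‖ ≤ R := (pi_norm_le_iff_of_nonneg ((norm_nonneg _).trans hcon)).2 fun i =>
      (hnorm x i).trans hcon
    have := le_abs_self R
    linarith
  have h0 : ∀ x, x ∉ Ω → ϑ x = 0 := by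
    intro x hx
    rw [hϑ]
    simp only
    rw [hoff x hx, map_zero]
  have hcs : HasCompactSupport ϑ := by
    refine HasCompactSupport.intro (K := Metric.closedBall 0 (|R| + 1)) (isCompact_closedBall _ _)
      fun x hx => h0 x fun h => hx (Metric.ball_subset_closedBall h)
  obtain ⟨K, hK⟩ := hϑd.lipschitzWith_of_hasCompactSupport hcs (by norm_num)
  have hcert : QCtrig (W4 38 12 (-(8 / 5))) :=
    QCtrig_of_cert (contDiff_W4 _ _ _) (contDiff_θ4 _ _ _)
      (cert_W4 (by norm_num) (by norm_num) (by norm_num) (by norm_num))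
  have h := qc_of_trig (continuous_W4 38 12 (-(8 / 5))) hcert 0 Metric.isOpen_ball
    Metric.isBounded_ball hK h0
  have hW0 : W4 38 12 (-(8 / 5)) 0 = 0 := by simp [W4, pP, pQ]
  rw [hW0, zero_mul] at h
  simp only [zero_add] at h
  -- rewrite everything on the plane
  have hdc : Continuous (fun z => fderiv ℝ f z) := hf.continuous_fderiv (by norm_num)
  have hfd0 : ∀ x, x ∉ Metric.closedBall (0 : V) (|R| + 1) → fderiv ℝ f (toC x) = 0 := by
    intro x hx
    have h1 : ¬ (toC x ∈ tsupport f) := by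
      intro hmem
      have h2 := hR hmem
      rw [Metric.mem_closedBall, dist_zero_right] at h2
      apply hx
      rw [Metric.mem_closedBall, dist_zero_right]
      refine (pi_norm_le_iff_of_nonneg (by positivity)).2 fun i => ?_
      have := hnorm x i
      have h3 := le_abs_self R
      rw [Real.norm_eq_abs]
      linarith
    exact image_eq_zero_of_notMem_tsupport (fun h => h1 (tsupport_fderiv_subset ℝ h))
  have cz : Continuous (fun x : V => ‖dz f (toC x)‖ ^ 4) := by
    unfold dz
    have c1 : Continuous (fun x : V => fderiv ℝ f (toC x)) := hdc.comp toC.continuous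
    exact ((continuous_const.mul ((c1.clm_apply continuous_const).sub
      (continuous_const.mul (c1.clm_apply continuous_const)))).norm).pow 4
  have czb : Continuous (fun x : V => ‖dzbar f (toC x)‖ ^ 4) := by
    unfold dzbar
    have c1 : Continuous (fun x : V => fderiv ℝ f (toC x)) := hdc.comp toC.continuous
    exact ((continuous_const.mul ((c1.clm_apply continuous_const).add
      (continuous_const.mul (c1.clm_apply continuous_const)))).norm).pow 4
  have sz : HasCompactSupport (fun x : V => ‖dz f (toC x)‖ ^ 4) := by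
    refine HasCompactSupport.intro (K := Metric.closedBall 0 (|R| + 1)) (isCompact_closedBall _ _)
      fun x hx => ?_
    simp [dz, hfd0 x hx]
  have szb : HasCompactSupport (fun x : V => ‖dzbar f (toC x)‖ ^ 4) := by
    refine HasCompactSupport.intro (K := Metric.closedBall 0 (|R| + 1)) (isCompact_closedBall _ _)
      fun x hx => ?_
    simp [dzbar, hfd0 x hx]
  have iz := cz.integrable_of_hasCompactSupport (μ := volume) sz
  have izb := czb.integrable_of_hasCompactSupport (μ := volume) szb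
  have hle : ∫ x in Ω, W4 38 12 (-(8 / 5)) (gr ϑ x)
      ≤ ∫ x : V, (98 * ‖dz f (toC x)‖ ^ 4 - ‖dzbar f (toC x)‖ ^ 4) := by
    have hWz : ∀ x, x ∉ Metric.closedBall (0 : V) (|R| + 1) →
        W4 38 12 (-(8 / 5)) (gr ϑ x) = 0 := by
      intro x hx
      rw [W4, hϑ, pP_gr hf, pQ_gr hf]
      simp [dz, dzbar, hfd0 x hx]
    have hWc : Continuous (fun x => W4 38 12 (-(8 / 5)) (gr ϑ x)) :=
      (continuous_W4 _ _ _).comp (continuous_gr hϑd)
    have hWs : HasCompactSupport (fun x => W4 38 12 (-(8 / 5)) (gr ϑ x)) :=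
      HasCompactSupport.intro (K := Metric.closedBall 0 (|R| + 1)) (isCompact_closedBall _ _) hWz
    have hWi := hWc.integrable_of_hasCompactSupport (μ := volume) hWs
    have e1 : ∫ x in Ω, W4 38 12 (-(8 / 5)) (gr ϑ x) = ∫ x : V, W4 38 12 (-(8 / 5)) (gr ϑ x) := by
      refine setIntegral_eq_integral_of_ae_compl_eq_zero ?_
      have := Pool.Agent.Helper188.Morrey.grad_off hK Metric.isOpen_ball h0
      rw [ae_restrict_iff' Metric.isOpen_ball.measurableSet.compl] at this
      filter_upwards [this] with x hx hx'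
      have hx3 : gr ϑ x = 0 := by
        rw [gr_eq_grad, hx hx']
        rfl
      rw [hx3]
      exact hW0
    rw [e1]
    refine integral_mono hWi ((iz.const_mul 98).sub izb) fun x => ?_
    simp only
    rw [W4, hϑ, pP_gr hf, pQ_gr hf]
    have hsq := sq_nonneg (10 * ‖dz f (toC x)‖ ^ 2 - ‖dzbar f (toC x)‖ ^ 2)
    nlinarith [hsq]
  rw [integral_sub (iz.const_mul 98) izb, integral_const_mul] at hle
  rw [integral_toC (fun z => ‖dzbar f z‖ ^ 4), integral_toC (fun z => ‖dz f z‖ ^ 4)]
  linarith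

end Pool.Agent.W779.Morrey
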