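import Pool.Agent.W779.Morrey.BeurlingSch

set_option autoImplicit false

open MeasureTheory Set Filter Topology
open scoped SchwartzMap FourierTransform LineDeriv ContDiff ENNReal

namespace Pool.Agent.W779.Morrey

/-- frequency cutoff away from zero and infinity -/
noncomputable def mcut (n : ℕ) (ξ : ℂ) : ℝ := cutn n ξ * (1 - cut (((n : ℝ) + 1) • ξ))

theorem mcut_zero {n : ℕ} {ξ : ℂ} (h : ((n : ℝ) + 1) * ‖ξ‖ ≤ 1) : mcut n ξ = 0 := by
  unfold mcut
  have hn' : (0:ℝ) < (n : ℝ) + 1 := by positivity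
  rw [cut_one (z := ((n : ℝ) + 1) • ξ) (by rw [norm_smul, Real.norm_eq_abs, abs_of_pos hn']; exact h),
    sub_self, mul_zero]

theorem cut_mem (z : ℂ) : 0 ≤ (cut z : ℝ) ∧ (cut z : ℝ) ≤ 1 := ⟨cut.nonneg, cut.le_one⟩

theorem mcut_mem (n : ℕ) (ξ : ℂ) : 0 ≤ mcut n ξ ∧ mcut n ξ ≤ 1 := by
  unfold mcut cutn
  have h1 := cut_mem (((n : ℝ) + 1)⁻¹ • ξ)
  have h2 := cut_mem (((n : ℝ) + 1) • ξ)
  constructor
  · exact mul_nonneg h1.1 (by linarith [h2.2])
  · nlinarith [h1.1, h1.2, h2.1, h2.2]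

theorem mcut_tendsto {ξ : ℂ} (hξ : ξ ≠ 0) : ∀ᶠ n : ℕ in atTop, mcut n ξ = 1 := by
  have h0 : 0 < ‖ξ‖ := norm_pos_iff.2 hξ
  obtain ⟨N, hN⟩ := exists_nat_ge (2 / ‖ξ‖)
  filter_upwards [cutn_tendsto ξ, eventually_ge_atTop N] with n h1 h2
  unfold mcut
  have hn' : (0:ℝ) < (n : ℝ) + 1 := by positivity
  have h3 : (N : ℝ) ≤ n := by exact_mod_cast h2
  rw [h1, cut_zero (z := ((n : ℝ) + 1) • ξ), sub_zero, mul_one]
  rw [norm_smul, Real.norm_eq_abs, abs_of_pos hn']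
  rw [div_le_iff₀ h0] at hN
  nlinarith

theorem contDiff_mcut (n : ℕ) {m : ℕ∞} : ContDiff ℝ m (mcut n) :=
  (contDiff_cutn n).mul (contDiff_const.sub (cut.contDiff.comp (contDiff_const_smul _)))

variable (g : 𝓢(ℂ, ℂ))

/-- the potential on the Fourier side -/
noncomputable def hpot (n : ℕ) (ξ : ℂ) : ℂ :=
  ((mcut n ξ : ℝ) : ℂ) * (Real.pi * Complex.I * ξ)⁻¹ * g ξ

theorem hpot_contDiff (n : ℕ) : ContDiff ℝ ∞ (hpot g n) := by
  rw [contDiff_iff_contDiffAt]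
  intro ξ
  by_cases hξ : ξ = 0
  · subst hξ
    have : hpot g n =ᶠ[𝓝 0] fun _ => 0 := by
      have hn' : (0:ℝ) < 1 / ((n : ℝ) + 1) := by positivity
      filter_upwards [Metric.ball_mem_nhds (0 : ℂ) hn'] with z hz
      rw [Metric.mem_ball, dist_zero_right, lt_div_iff₀ (by positivity)] at hz
      unfold hpot
      rw [mcut_zero (by linarith)]
      simp
    exact contDiffAt_const.congr_of_eventuallyEq this
  · have h1 : ContDiffAt ℝ ∞ (fun ξ => ((mcut n ξ : ℝ) : ℂ)) ξ :=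
      Complex.ofRealCLM.contDiff.contDiffAt.comp ξ (contDiff_mcut n).contDiffAt
    have h2 : ContDiffAt ℝ ∞ (fun ξ : ℂ => (Real.pi * Complex.I * ξ)⁻¹) ξ := by
      refine ContDiffAt.inv (contDiffAt_const.mul contDiffAt_id) ?_
      simp [Real.pi_ne_zero, hξ]
    exact (h1.mul h2).mul (g.smooth ⊤).contDiffAt

theorem hpot_support (n : ℕ) : HasCompactSupport (hpot g n) := by
  refine HasCompactSupport.intro (K := tsupport (cutn n)) (cutn_support n) fun z hz => ?_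
  unfold hpot mcut
  rw [image_eq_zero_of_notMem_tsupport hz]
  simp

/-- the potential as a Schwartz function -/
noncomputable def Hs (n : ℕ) : 𝓢(ℂ, ℂ) := (hpot_support g n).toSchwartzMap (hpot_contDiff g n)

theorem Hs_apply (n : ℕ) (ξ : ℂ) : Hs g n ξ = hpot g n ξ := rfl

/-- the derivative in direction `m` on the Fourier side -/
noncomputable def Ks (n : ℕ) (m : ℂ) : 𝓢(ℂ, ℂ) :=
  (2 * Real.pi * Complex.I) • SchwartzMap.smulLeftCLM ℂ (inner ℝ · m) (Hs g n)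

theorem inner_growth (m : ℂ) : (inner ℝ · m : ℂ → ℝ).HasTemperateGrowth :=
  ((innerSL ℝ).flip m).hasTemperateGrowth

theorem Ks_apply (n : ℕ) (m ξ : ℂ) :
    Ks g n m ξ = (2 * Real.pi * Complex.I) * ((inner ℝ ξ m : ℝ) * hpot g n ξ) := by
  unfold Ks
  rw [_root_.smul_apply, SchwartzMap.smulLeftCLM_apply_apply (inner_growth m), Hs_apply]
  simp

theorem fderiv_pot (n : ℕ) (m z : ℂ) :
    fderiv ℝ (𝓕⁻ (Hs g n) : 𝓢(ℂ, ℂ)) z m = (𝓕⁻ (Ks g n m) : 𝓢(ℂ, ℂ)) z := by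
  rw [← SchwartzMap.lineDerivOp_apply_eq_fderiv, SchwartzMap.lineDerivOp_fourierInv_eq]
  rfl

/-- the holomorphic derivative on the Fourier side -/
noncomputable def S1 (n : ℕ) : 𝓢(ℂ, ℂ) := (1 / 2 : ℂ) • (Ks g n 1 + (-Complex.I) • Ks g n Complex.I)

/-- the antiholomorphic derivative on the Fourier side -/
noncomputable def S2 (n : ℕ) : 𝓢(ℂ, ℂ) := (1 / 2 : ℂ) • (Ks g n 1 + Complex.I • Ks g n Complex.I)

theorem S1_apply (n : ℕ) (ξ : ℂ) :
    S1 g n ξ = (starRingEnd ℂ ξ / ξ) * (((mcut n ξ : ℝ) : ℂ) * g ξ) := by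
  unfold S1
  simp only [_root_.smul_apply, _root_.add_apply, Ks_apply, smul_eq_mul]
  by_cases hξ : ξ = 0
  · subst hξ
    have : mcut n 0 = 0 := mcut_zero (by simp)
    simp [hpot, this]
  · have e : starRingEnd ℂ ξ = ξ.re - ξ.im * Complex.I := by
      apply Complex.ext <;> simp
    have hpi : (Real.pi : ℂ) ≠ 0 := by exact_mod_cast Real.pi_ne_zero
    rw [e]
    simp only [Complex.inner, hpot]
    simp
    field_simp
    ring_nf
    simp
    ring

theorem inner_one (ξ : ℂ) : (inner ℝ ξ (1 : ℂ) : ℝ) = ξ.re := by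
  rw [Complex.inner]; simp

theorem inner_I (ξ : ℂ) : (inner ℝ ξ Complex.I : ℝ) = ξ.im := by
  rw [Complex.inner]; simp

theorem S2_apply (n : ℕ) (ξ : ℂ) : S2 g n ξ = ((mcut n ξ : ℝ) : ℂ) * g ξ := by
  unfold S2
  simp only [_root_.smul_apply, _root_.add_apply, Ks_apply, smul_eq_mul]
  by_cases hξ : ξ = 0
  · subst hξ
    have : mcut n 0 = 0 := mcut_zero (by simp)
    simp [hpot, this]
  · have hpi : (Real.pi : ℂ) ≠ 0 := by exact_mod_cast Real.pi_ne_zero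
    have hI : Complex.I ≠ 0 := Complex.I_ne_zero
    rw [inner_one, inner_I]
    have e : (1 / 2 : ℂ) * (2 * Real.pi * Complex.I * ((ξ.re : ℂ) * hpot g n ξ)
        + Complex.I * (2 * Real.pi * Complex.I * ((ξ.im : ℂ) * hpot g n ξ)))
        = Real.pi * Complex.I * ((ξ.re : ℂ) + ξ.im * Complex.I) * hpot g n ξ := by ring
    rw [e, Complex.re_add_im, hpot]
    field_simp

end Pool.Agent.W779.Morrey
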