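import Pool.Agent.W779.Morrey.Beurling4

set_option autoImplicit false

open MeasureTheory Set Filter Topology
open scoped SchwartzMap FourierTransform

namespace Pool.Agent.W779.Morrey

theorem norm_dz_le (f : ℂ → ℂ) (z : ℂ) : ‖dz f z‖ ≤ ‖fderiv ℝ f z‖ := by
  unfold dz
  have h1 : ‖fderiv ℝ f z 1‖ ≤ ‖fderiv ℝ f z‖ := by
    simpa using (fderiv ℝ f z).le_opNorm 1
  have h2 : ‖fderiv ℝ f z Complex.I‖ ≤ ‖fderiv ℝ f z‖ := by
    simpa using (fderiv ℝ f z).le_opNorm Complex.I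
  rw [norm_mul]
  have h3 : ‖fderiv ℝ f z 1 - Complex.I * fderiv ℝ f z Complex.I‖
      ≤ ‖fderiv ℝ f z 1‖ + ‖fderiv ℝ f z Complex.I‖ := by
    refine (norm_sub_le _ _).trans ?_
    rw [norm_mul, Complex.norm_I, one_mul]
  have h4 : ‖(1 / 2 : ℂ)‖ = 1 / 2 := by simp
  rw [h4]
  linarith

theorem norm_dzbar_le (f : ℂ → ℂ) (z : ℂ) : ‖dzbar f z‖ ≤ ‖fderiv ℝ f z‖ := by
  unfold dzbar
  have h1 : ‖fderiv ℝ f z 1‖ ≤ ‖fderiv ℝ f z‖ := by
    simpa using (fderiv ℝ f z).le_opNorm 1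
  have h2 : ‖fderiv ℝ f z Complex.I‖ ≤ ‖fderiv ℝ f z‖ := by
    simpa using (fderiv ℝ f z).le_opNorm Complex.I
  rw [norm_mul]
  have h3 : ‖fderiv ℝ f z 1 + Complex.I * fderiv ℝ f z Complex.I‖
      ≤ ‖fderiv ℝ f z 1‖ + ‖fderiv ℝ f z Complex.I‖ := by
    refine (norm_add_le _ _).trans ?_
    rw [norm_mul, Complex.norm_I, one_mul]
  have h4 : ‖(1 / 2 : ℂ)‖ = 1 / 2 := by simp
  rw [h4]
  linarith

/-- the inequality with the two derivatives exchanged -/
theorem beurling_four' (f : ℂ → ℂ) (hf : ContDiff ℝ 1 f) (hc : HasCompactSupport f) :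
    ∫ z, ‖dz f z‖ ^ 4 ≤ 98 * ∫ z, ‖dzbar f z‖ ^ 4 := by
  set g : ℂ → ℂ := fun z => Complex.conjCLE (f z) with hg
  have hgd : ContDiff ℝ 1 g := Complex.conjCLE.contDiff.comp hf
  have hgc : HasCompactSupport g := hc.comp_left (map_zero Complex.conjCLE)
  have hfd : ∀ z v, fderiv ℝ g z v = (starRingEnd ℂ) (fderiv ℝ f z v) := by
    intro z v
    have h1 : HasFDerivAt f (fderiv ℝ f z) z := (hf.differentiable (by norm_num) z).hasFDerivAt
    have h2 : HasFDerivAt g ((Complex.conjCLE : ℂ →L[ℝ] ℂ).comp (fderiv ℝ f z)) z :=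
      (Complex.conjCLE : ℂ →L[ℝ] ℂ).hasFDerivAt.comp z h1
    rw [h2.fderiv]
    rfl
  have e1 : ∀ z, ‖dzbar g z‖ = ‖dz f z‖ := by
    intro z
    have : dzbar g z = (starRingEnd ℂ) (dz f z) := by
      simp only [dzbar, dz, hfd, map_mul, map_sub, map_div₀, map_one, map_ofNat, Complex.conj_I]
      ring
    rw [this, RCLike.norm_conj]
  have e2 : ∀ z, ‖dz g z‖ = ‖dzbar f z‖ := by
    intro z
    have : dz g z = (starRingEnd ℂ) (dzbar f z) := by
      simp only [dzbar, dz, hfd, map_mul, map_add, map_div₀, map_one, map_ofNat, Complex.conj_I]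
      ring
    rw [this, RCLike.norm_conj]
  have h := beurling_four g hgd hgc
  simp only [e1, e2] at h
  exact h

/-- the cutoff function -/
noncomputable def cut : ContDiffBump (0 : ℂ) := ⟨1, 2, one_pos, one_lt_two⟩

theorem cut_one {z : ℂ} (h : ‖z‖ ≤ 1) : cut z = 1 :=
  cut.one_of_mem_closedBall (by simpa [cut] using h)

theorem cut_zero {z : ℂ} (h : 2 ≤ ‖z‖) : cut z = 0 :=
  cut.zero_of_le_dist (by simpa [cut] using h)

/-- scaled cutoff -/
noncomputable def cutn (n : ℕ) (z : ℂ) : ℝ := cut (((n : ℝ) + 1)⁻¹ • z)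

theorem contDiff_cutn (n : ℕ) {m : ℕ∞} : ContDiff ℝ m (cutn n) :=
  cut.contDiff.comp (contDiff_const_smul _)

theorem fderiv_cutn_bound : ∃ C : ℝ, 0 ≤ C ∧ ∀ n z, ‖fderiv ℝ (cutn n) z‖ ≤ C / ((n : ℝ) + 1) := by
  have hc : Continuous (fderiv ℝ (cut : ℂ → ℝ)) :=
    (cut.contDiff (n := 1)).continuous_fderiv (by norm_num)
  have hs : HasCompactSupport (fderiv ℝ (cut : ℂ → ℝ)) := cut.hasCompactSupport.fderiv ℝ
  obtain ⟨C, hC⟩ := hs.exists_bound_of_continuous hc
  refine ⟨C, (norm_nonneg _).trans (hC 0), fun n z => ?_⟩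
  have hn : (0:ℝ) < (n : ℝ) + 1 := by positivity
  have h1 : HasFDerivAt (cut : ℂ → ℝ) (fderiv ℝ (cut : ℂ → ℝ) (((n : ℝ) + 1)⁻¹ • z))
      (((n : ℝ) + 1)⁻¹ • z) :=
    ((cut.contDiff (n := 1)).differentiable (by norm_num) _).hasFDerivAt
  have h2 : HasFDerivAt (fun z : ℂ => ((n : ℝ) + 1)⁻¹ • z)
      (((n : ℝ) + 1)⁻¹ • ContinuousLinearMap.id ℝ ℂ) z :=
    (hasFDerivAt_id z).const_smul (((n : ℝ) + 1)⁻¹)
  have h3 := h1.comp z h2
  have h4 : fderiv ℝ (cutn n) z = (fderiv ℝ (cut : ℂ → ℝ) (((n : ℝ) + 1)⁻¹ • z)).comp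
      (((n : ℝ) + 1)⁻¹ • ContinuousLinearMap.id ℝ ℂ) := h3.fderiv
  rw [h4, ContinuousLinearMap.comp_smul, ContinuousLinearMap.comp_id, norm_smul, norm_inv,
    Real.norm_eq_abs, abs_of_pos hn, div_eq_inv_mul]
  exact mul_le_mul_of_nonneg_left (hC _) (inv_nonneg.2 hn.le)

theorem cutn_abs_le (n : ℕ) (z : ℂ) : |cutn n z| ≤ 1 := by
  unfold cutn
  rw [abs_of_nonneg cut.nonneg]
  exact cut.le_one

theorem cutn_tendsto (z : ℂ) : ∀ᶠ n : ℕ in atTop, cutn n z = 1 := by
  obtain ⟨N, hN⟩ := exists_nat_ge ‖z‖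
  filter_upwards [eventually_ge_atTop N] with n hn
  refine cut_one ?_
  have hn' : (0:ℝ) < (n : ℝ) + 1 := by positivity
  have h1 : (N : ℝ) ≤ n := by exact_mod_cast hn
  rw [norm_smul, norm_inv, Real.norm_eq_abs, abs_of_pos hn', inv_mul_le_iff₀ hn']
  linarith

theorem cutn_support (n : ℕ) : HasCompactSupport (cutn n) := by
  refine HasCompactSupport.intro (K := Metric.closedBall 0 (2 * ((n : ℝ) + 1)))
    (isCompact_closedBall _ _) fun z hz => ?_
  have hn' : (0:ℝ) < (n : ℝ) + 1 := by positivity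
  rw [Metric.mem_closedBall, dist_zero_right, not_le] at hz
  refine cut_zero ?_
  rw [norm_smul, norm_inv, Real.norm_eq_abs, abs_of_pos hn', ← div_eq_inv_mul, le_div_iff₀ hn']
  exact hz.le

theorem beurling_schwartz (u : 𝓢(ℂ, ℂ)) :
    ∫ z, ‖dz u z‖ ^ 4 ≤ 98 * ∫ z, ‖dzbar u z‖ ^ 4 := by
  obtain ⟨C, hC0, hC⟩ := fderiv_cutn_bound
  set un : ℕ → ℂ → ℂ := fun n z => cutn n z • u z with hun
  have hud : ∀ z, HasFDerivAt (u : ℂ → ℂ) (fderiv ℝ u z) z := fun z => u.differentiableAt.hasFDerivAt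
  have hcd : ∀ n z, HasFDerivAt (cutn n) (fderiv ℝ (cutn n) z) z := fun n z =>
    ((contDiff_cutn n (m := 1)).differentiable (by norm_num) z).hasFDerivAt
  have hfd : ∀ n z, fderiv ℝ (un n) z
      = cutn n z • fderiv ℝ u z + (fderiv ℝ (cutn n) z).smulRight (u z) := fun n z =>
    ((hcd n z).smul (hud z)).fderiv
  have hbd : ∀ n z, ‖fderiv ℝ (un n) z‖ ≤ ‖fderiv ℝ u z‖ + C * ‖u z‖ := by
    intro n z
    rw [hfd]
    refine (norm_add_le _ _).trans (add_le_add ?_ ?_)
    · rw [norm_smul, Real.norm_eq_abs]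
      exact mul_le_of_le_one_left (norm_nonneg _) (cutn_abs_le n z)
    · rw [ContinuousLinearMap.norm_smulRight_apply]
      refine mul_le_mul_of_nonneg_right ((hC n z).trans ?_) (norm_nonneg _)
      refine div_le_self hC0 ?_
      have : (0:ℝ) ≤ n := Nat.cast_nonneg n
      linarith
  have hlimd : ∀ z, Tendsto (fun n => fderiv ℝ (un n) z) atTop (𝓝 (fderiv ℝ u z)) := by
    intro z
    simp only [hfd]
    have h1 : Tendsto (fun n => cutn n z • fderiv ℝ u z) atTop (𝓝 (fderiv ℝ u z)) := by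
      refine tendsto_const_nhds.congr' ?_
      filter_upwards [cutn_tendsto z] with n hn
      rw [hn, one_smul]
    have h2 : Tendsto (fun n => (fderiv ℝ (cutn n) z).smulRight (u z)) atTop (𝓝 0) := by
      rw [tendsto_zero_iff_norm_tendsto_zero]
      refine squeeze_zero (fun n => norm_nonneg _) (g := fun n : ℕ => C / ((n : ℝ) + 1) * ‖u z‖)
        (fun n => ?_) ?_
      · rw [ContinuousLinearMap.norm_smulRight_apply]
        exact mul_le_mul_of_nonneg_right (hC n z) (norm_nonneg _)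
      · have : Tendsto (fun n : ℕ => C / ((n : ℝ) + 1)) atTop (𝓝 0) :=
          tendsto_const_nhds.div_atTop
            (tendsto_atTop_add_const_right _ _ tendsto_natCast_atTop_atTop)
        simpa using this.mul_const ‖u z‖
    simpa using h1.add h2
  have hl : ∀ z v, Tendsto (fun n => fderiv ℝ (un n) z v) atTop (𝓝 (fderiv ℝ u z v)) :=
    fun z v => ((ContinuousLinearMap.apply ℝ ℂ v).continuous.tendsto _).comp (hlimd z)
  have hund : ∀ n, ContDiff ℝ 1 (un n) := fun n => (contDiff_cutn n (m := 1)).smul (u.smooth 1)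
  have hunc : ∀ n, HasCompactSupport (un n) := fun n => (cutn_support n).smul_right
  have hbint : Integrable (fun z => (‖fderiv ℝ u z‖ + C * ‖u z‖) ^ 4) := by
    have m1 : MemLp (fun z => ‖fderiv ℝ u z‖) 4 (volume : Measure ℂ) :=
      ((SchwartzMap.fderivCLM ℝ ℂ ℂ u).memLp 4 volume).norm
    have m2 : MemLp (fun z => C * ‖u z‖) 4 (volume : Measure ℂ) :=
      ((u.memLp 4 volume).norm).const_mul C
    have m3 := (m1.add m2).integrable_norm_pow (p := 4) (by norm_num)
    refine m3.congr (Eventually.of_forall fun z => ?_)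
    simp only [Pi.add_apply, Real.norm_eq_abs]
    rw [abs_of_nonneg (by positivity)]
  have hL : Tendsto (fun n => ∫ z, ‖dz (un n) z‖ ^ 4) atTop (𝓝 (∫ z, ‖dz u z‖ ^ 4)) := by
    refine tendsto_integral_of_dominated_convergence (fun z => (‖fderiv ℝ u z‖ + C * ‖u z‖) ^ 4)
      (fun n => ?_) hbint (fun n => Eventually.of_forall fun z => ?_)
      (Eventually.of_forall fun z => ?_)
    · have c1 := (hund n).continuous_fderiv (by norm_num)
      have : Continuous (fun z => ‖dz (un n) z‖ ^ 4) := by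
        unfold dz
        exact ((continuous_const.mul ((c1.clm_apply continuous_const).sub
          (continuous_const.mul (c1.clm_apply continuous_const)))).norm).pow 4
      exact this.aestronglyMeasurable
    · rw [Real.norm_eq_abs, abs_of_nonneg (by positivity)]
      exact pow_le_pow_left₀ (norm_nonneg _) ((norm_dz_le _ _).trans (hbd n z)) 4
    · refine ((Tendsto.norm ?_).pow 4)
      unfold dz
      exact ((hl z 1).sub ((hl z Complex.I).const_mul _)).const_mul _
  have hR : Tendsto (fun n => ∫ z, ‖dzbar (un n) z‖ ^ 4) atTop (𝓝 (∫ z, ‖dzbar u z‖ ^ 4)) := by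
    refine tendsto_integral_of_dominated_convergence (fun z => (‖fderiv ℝ u z‖ + C * ‖u z‖) ^ 4)
      (fun n => ?_) hbint (fun n => Eventually.of_forall fun z => ?_)
      (Eventually.of_forall fun z => ?_)
    · have c1 := (hund n).continuous_fderiv (by norm_num)
      have : Continuous (fun z => ‖dzbar (un n) z‖ ^ 4) := by
        unfold dzbar
        exact ((continuous_const.mul ((c1.clm_apply continuous_const).add
          (continuous_const.mul (c1.clm_apply continuous_const)))).norm).pow 4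
      exact this.aestronglyMeasurable
    · rw [Real.norm_eq_abs, abs_of_nonneg (by positivity)]
      exact pow_le_pow_left₀ (norm_nonneg _) ((norm_dzbar_le _ _).trans (hbd n z)) 4
    · refine ((Tendsto.norm ?_).pow 4)
      unfold dzbar
      exact ((hl z 1).add ((hl z Complex.I).const_mul _)).const_mul _
  exact le_of_tendsto_of_tendsto' hL (hR.const_mul 98) fun n =>
    beurling_four' (un n) (hund n) (hunc n)

end Pool.Agent.W779.Morrey
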