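import Pool.Agent.W779.Morrey.Iso

set_option autoImplicit false

open MeasureTheory Set Filter Topology Matrix

namespace Pool.Agent.W779.Morrey

/-- the rotation by the angle `t` -/
noncomputable def rot (t : ℝ) : Matrix (Fin 2) (Fin 2) ℝ :=
  !![Real.cos t, -Real.sin t; Real.sin t, Real.cos t]

/-- singular value decomposition with rotations -/
theorem svd (F : Matrix (Fin 2) (Fin 2) ℝ) :
    ∃ α β x y : ℝ, F = rot α * !![x, 0; 0, y] * rot β := by
  set za : ℂ := ⟨(F 0 0 + F 1 1) / 2, (F 1 0 - F 0 1) / 2⟩ with hza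
  set zb : ℂ := ⟨(F 0 0 - F 1 1) / 2, (F 1 0 + F 0 1) / 2⟩ with hzb
  have h1 := Complex.norm_mul_cos_arg za
  have h2 := Complex.norm_mul_sin_arg za
  have h3 := Complex.norm_mul_cos_arg zb
  have h4 := Complex.norm_mul_sin_arg zb
  set α := (Complex.arg za + Complex.arg zb) / 2 with hα
  set β := (Complex.arg za - Complex.arg zb) / 2 with hβ
  have e1 : Complex.arg za = α + β := by rw [hα, hβ]; ring
  have e2 : Complex.arg zb = α - β := by rw [hα, hβ]; ring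
  rw [e1, Real.cos_add] at h1
  rw [e1, Real.sin_add] at h2
  rw [e2, Real.cos_sub] at h3
  rw [e2, Real.sin_sub] at h4
  have r1 : za.re = (F 0 0 + F 1 1) / 2 := rfl
  have r2 : za.im = (F 1 0 - F 0 1) / 2 := rfl
  have r3 : zb.re = (F 0 0 - F 1 1) / 2 := rfl
  have r4 : zb.im = (F 1 0 + F 0 1) / 2 := rfl
  rw [r1] at h1
  rw [r2] at h2
  rw [r3] at h3
  rw [r4] at h4
  refine ⟨α, β, ‖za‖ + ‖zb‖, ‖za‖ - ‖zb‖, ?_⟩
  ext i j
  fin_cases i <;> fin_cases j
  · simp [rot, Matrix.mul_apply, Fin.sum_univ_two]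
    linarith
  · simp [rot, Matrix.mul_apply, Fin.sum_univ_two]
    linarith
  · simp [rot, Matrix.mul_apply, Fin.sum_univ_two]
    linarith
  · simp [rot, Matrix.mul_apply, Fin.sum_univ_two]
    linarith

/-- the restriction to diagonal matrices -/
def isoD (c : Fin 6 → ℝ) (x y : ℝ) : ℝ :=
  c 0 + c 1 * (x ^ 2 + y ^ 2) + c 2 * (x * y) + c 3 * (x ^ 2 + y ^ 2) ^ 2
    + c 4 * ((x ^ 2 + y ^ 2) * (x * y)) + c 5 * (x * y) ^ 2

theorem isoD_sum {ι : Type*} (s : Finset ι) (a : ι → ℝ) (c : ι → Fin 6 → ℝ) (x y : ℝ) :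
    isoD (fun k => ∑ i ∈ s, a i * c i k) x y = ∑ i ∈ s, a i * isoD (c i) x y := by
  simp only [isoD, Finset.sum_mul, ← Finset.sum_add_distrib]
  exact Finset.sum_congr rfl fun i _ => by ring

theorem mono_sym (i j k l : ℕ) (h : i + j + k + l ≤ 4) :
    ∃ c : Fin 6 → ℝ, ∀ x y : ℝ,
      x ^ i * 0 ^ j * 0 ^ k * y ^ l + y ^ i * 0 ^ j * 0 ^ k * x ^ l
        + (-x) ^ i * 0 ^ j * 0 ^ k * (-y) ^ l + (-y) ^ i * 0 ^ j * 0 ^ k * (-x) ^ l
        = isoD c x y := by
  rcases Nat.eq_zero_or_pos j with rfl | hj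
  swap
  · exact ⟨0, fun x y => by simp [isoD, zero_pow hj.ne']⟩
  rcases Nat.eq_zero_or_pos k with rfl | hk
  swap
  · exact ⟨0, fun x y => by simp [isoD, zero_pow hk.ne']⟩
  have hi : i ≤ 4 := by omega
  have hl : l ≤ 4 - i := by omega
  interval_cases i
  · interval_cases l
    · exact ⟨![4, 0, 0, 0, 0, 0], fun x y => by simp [isoD]; ring⟩
    · exact ⟨0, fun x y => by simp [isoD]⟩
    · exact ⟨![0, 2, 0, 0, 0, 0], fun x y => by simp [isoD]; ring⟩
    · exact ⟨0, fun x y => by simp [isoD]; ring⟩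
    · exact ⟨![0, 0, 0, 2, 0, -4], fun x y => by simp [isoD]; ring⟩
  · interval_cases l
    · exact ⟨0, fun x y => by simp [isoD]⟩
    · exact ⟨![0, 0, 4, 0, 0, 0], fun x y => by simp [isoD]; ring⟩
    · exact ⟨0, fun x y => by simp [isoD]⟩
    · exact ⟨![0, 0, 0, 0, 2, 0], fun x y => by simp [isoD]; ring⟩
  · interval_cases l
    · exact ⟨![0, 2, 0, 0, 0, 0], fun x y => by simp [isoD]; ring⟩
    · exact ⟨0, fun x y => by simp [isoD]⟩
    · exact ⟨![0, 0, 0, 0, 0, 4], fun x y => by simp [isoD]; ring⟩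
  · interval_cases l
    · exact ⟨0, fun x y => by simp [isoD]; ring⟩
    · exact ⟨![0, 0, 0, 0, 2, 0], fun x y => by simp [isoD]; ring⟩
  · interval_cases l
    · exact ⟨![0, 0, 0, 2, 0, -4], fun x y => by simp [isoD]; ring⟩

/-- polynomial functions of the matrix entries -/
noncomputable def polyFun (P : MvPolynomial (Fin 2 × Fin 2) ℝ) (F : Matrix (Fin 2) (Fin 2) ℝ) : ℝ :=
  MvPolynomial.eval (fun p => F p.1 p.2) P

theorem eval_diag (P : MvPolynomial (Fin 2 × Fin 2) ℝ) (x y : ℝ) :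
    polyFun P !![x, 0; 0, y] = ∑ m ∈ P.support, P.coeff m *
      (x ^ m (0, 0) * 0 ^ m (0, 1) * 0 ^ m (1, 0) * y ^ m (1, 1)) := by
  unfold polyFun
  rw [MvPolynomial.eval_eq']
  refine Finset.sum_congr rfl fun m _ => ?_
  rw [Fintype.prod_prod_type]
  simp only [Fin.prod_univ_two]
  congr 1
  simp
  ring

theorem rot_pi_div_two_conj (x y : ℝ) :
    rot (Real.pi / 2) * !![x, 0; 0, y] * rot (-(Real.pi / 2)) = !![y, 0; 0, x] := by
  ext i j
  fin_cases i <;> fin_cases j <;> simp [rot, Matrix.mul_apply, Fin.sum_univ_two]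

theorem rot_pi_mul (x y : ℝ) :
    rot Real.pi * !![x, 0; 0, y] * rot 0 = !![-x, 0; 0, -y] := by
  ext i j
  fin_cases i <;> fin_cases j <;> simp [rot, Matrix.mul_apply, Fin.sum_univ_two]

theorem nsq_rot (α β : ℝ) (x y : ℝ) : nsq (rot α * !![x, 0; 0, y] * rot β) = x ^ 2 + y ^ 2 := by
  simp [nsq, rot, Matrix.mul_apply, Fin.sum_univ_two]
  have h1 := Real.sin_sq_add_cos_sq α
  have h2 := Real.sin_sq_add_cos_sq β
  have e1 : Real.sin α ^ 2 = 1 - Real.cos α ^ 2 := by linarith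
  have e2 : Real.sin β ^ 2 = 1 - Real.cos β ^ 2 := by linarith
  ring_nf
  rw [e1, e2]
  ring

theorem det_rot_mul (α β : ℝ) (x y : ℝ) : (rot α * !![x, 0; 0, y] * rot β).det = x * y := by
  have h : ∀ t, (rot t).det = 1 := by
    intro t
    rw [rot, Matrix.det_fin_two_of]
    have := Real.sin_sq_add_cos_sq t
    nlinarith
  rw [Matrix.det_mul, Matrix.det_mul, h, h, Matrix.det_fin_two_of]
  ring

/-- **Normal form** of rotation invariant polynomials of degree at most four. -/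
theorem normal_form (P : MvPolynomial (Fin 2 × Fin 2) ℝ) (hdeg : P.totalDegree ≤ 4)
    (hinv : ∀ (α β : ℝ) (F : Matrix (Fin 2) (Fin 2) ℝ), polyFun P (rot α * F * rot β) = polyFun P F) :
    ∃ c : Fin 6 → ℝ, polyFun P = Iso c := by
  have hm : ∀ m ∈ P.support, m (0, 0) + m (0, 1) + m (1, 0) + m (1, 1) ≤ 4 := by
    intro m hm
    have h1 := MvPolynomial.le_totalDegree hm
    have h2 : (m.sum fun _ e => e) = m (0, 0) + m (0, 1) + m (1, 0) + m (1, 1) := by
      rw [Finsupp.sum_fintype _ _ (fun _ => rfl), Fintype.sum_prod_type]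
      simp [Fin.sum_univ_two]
      ring
    omega
  have hch : ∀ m : Fin 2 × Fin 2 →₀ ℕ, ∃ c : Fin 6 → ℝ, m ∈ P.support → ∀ x y : ℝ,
      x ^ m (0, 0) * 0 ^ m (0, 1) * 0 ^ m (1, 0) * y ^ m (1, 1)
        + y ^ m (0, 0) * 0 ^ m (0, 1) * 0 ^ m (1, 0) * x ^ m (1, 1)
        + (-x) ^ m (0, 0) * 0 ^ m (0, 1) * 0 ^ m (1, 0) * (-y) ^ m (1, 1)
        + (-y) ^ m (0, 0) * 0 ^ m (0, 1) * 0 ^ m (1, 0) * (-x) ^ m (1, 1) = isoD c x y := by
    intro m
    by_cases h : m ∈ P.support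
    · obtain ⟨c, hc⟩ := mono_sym _ _ _ _ (hm m h)
      exact ⟨c, fun _ => hc⟩
    · exact ⟨0, fun h' => absurd h' h⟩
  choose cf hcf using hch
  set c0 : Fin 6 → ℝ := fun k => ∑ m ∈ P.support, P.coeff m * cf m k with hc0
  have hdiag : ∀ x y : ℝ, 4 * polyFun P !![x, 0; 0, y] = isoD c0 x y := by
    intro x y
    have s1 : polyFun P !![y, 0; 0, x] = polyFun P !![x, 0; 0, y] := by
      rw [← rot_pi_div_two_conj x y, hinv]
    have s2 : polyFun P !![-x, 0; 0, -y] = polyFun P !![x, 0; 0, y] := by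
      rw [← rot_pi_mul x y, hinv]
    have s3 : polyFun P !![-y, 0; 0, -x] = polyFun P !![x, 0; 0, y] := by
      rw [← rot_pi_mul y x, hinv, s1]
    have e : 4 * polyFun P !![x, 0; 0, y] = polyFun P !![x, 0; 0, y] + polyFun P !![y, 0; 0, x]
        + polyFun P !![-x, 0; 0, -y] + polyFun P !![-y, 0; 0, -x] := by
      rw [s1, s2, s3]; ring
    rw [e, eval_diag, eval_diag, eval_diag, eval_diag, ← Finset.sum_add_distrib,
      ← Finset.sum_add_distrib, ← Finset.sum_add_distrib, hc0, isoD_sum]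
    refine Finset.sum_congr rfl fun m hm' => ?_
    rw [← hcf m hm' x y]
    ring
  refine ⟨fun k => c0 k / 4, ?_⟩
  funext F
  obtain ⟨α, β, x, y, rfl⟩ := svd F
  rw [hinv, Iso, nsq_rot, det_rot_mul]
  have := hdiag x y
  rw [isoD] at this
  linarith

end Pool.Agent.W779.Morrey
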