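import Pool.Agent.W779.Morrey.C1case

set_option autoImplicit false

open MeasureTheory Set Filter Topology
open scoped Convolution

namespace Pool.Agent.W779.Morrey

/-- the mollifiers -/
noncomputable def bmp (n : ℕ) : ContDiffBump (0 : V) where
  rIn := 1 / (2 * ((n : ℝ) + 8))
  rOut := 1 / ((n : ℝ) + 8)
  rIn_pos := by positivity
  rIn_lt_rOut := by
    have h : (0:ℝ) < (n : ℝ) + 8 := by positivity
    rw [div_lt_div_iff₀ (by positivity) h]
    linarith

theorem bmp_rOut (n : ℕ) : (bmp n).rOut ≤ 1 / 8 := by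
  change 1 / ((n : ℝ) + 8) ≤ 1 / 8
  have h : (0:ℝ) ≤ n := Nat.cast_nonneg n
  rw [div_le_div_iff₀ (by positivity) (by norm_num)]
  linarith

/-- the mollified map -/
noncomputable def mol (v : V → V) (n : ℕ) (x : V) : V := ∫ t, (bmp n).normed volume t • v (x - t)

theorem bmp_zero {n : ℕ} {t : V} (h : (bmp n).normed volume t ≠ 0) : ∀ i, |t i| < 1 / 8 := by
  intro i
  have h1 : t ∈ Function.support ((bmp n).normed (volume : Measure V)) := h
  rw [ContDiffBump.support_normed_eq, Metric.mem_ball, dist_zero_right] at h1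
  have h2 := norm_le_pi_norm t i
  rw [Real.norm_eq_abs] at h2
  linarith [bmp_rOut n]

theorem integrable_bmp (n : ℕ) : Integrable ((bmp n).normed (volume : Measure V)) :=
  (bmp n).integrable_normed

theorem integrable_mol {X : Type*} [NormedAddCommGroup X] [NormedSpace ℝ X] {g : V → X} {C : ℝ}
    (hg : AEStronglyMeasurable g volume) (hC : ∀ x, ‖g x‖ ≤ C) (n : ℕ) (x : V) :
    Integrable (fun t => (bmp n).normed volume t • g (x - t)) := by
  refine (integrable_bmp n).smul_bdd C ?_ ?_
  · exact hg.comp_quasiMeasurePreserving (quasiMeasurePreserving_sub_left volume x)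
  · exact Eventually.of_forall fun t => hC _

variable {v : V → V} {K : NNReal}

theorem v_bound (hv : Continuous v) (h0 : ∀ x, (∃ i, x i ≤ 1 / 4 ∨ 3 / 4 ≤ x i) → v x = 0) :
    ∃ C, ∀ x, ‖v x‖ ≤ C := by
  have hcs : HasCompactSupport v := by
    refine HasCompactSupport.intro (K := Icc (0 : V) 1) isCompact_Icc fun x hx => h0 x ?_
    by_contra hcon
    push Not at hcon
    exact hx ⟨fun i => by have := (hcon i).1; simp only [Pi.zero_apply]; linarith,
      fun i => by have := (hcon i).2; simp only [Pi.one_apply]; linarith⟩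
  exact hcs.exists_bound_of_continuous hv

theorem mol_contDiff (hK : LipschitzWith K v) (n : ℕ) : ContDiff ℝ 1 (mol v n) := by
  have h := (bmp n).hasCompactSupport_normed (μ := (volume : Measure V)) |>.contDiff_convolution_left
    (ContinuousLinearMap.lsmul ℝ ℝ) ((bmp n).contDiff_normed (n := 1))
    (hK.continuous.locallyIntegrable (μ := (volume : Measure V)))
  exact h

theorem mol_lipschitz (hK : LipschitzWith K v)
    (h0 : ∀ x, (∃ i, x i ≤ 1 / 4 ∨ 3 / 4 ≤ x i) → v x = 0) (n : ℕ) :
    LipschitzWith K (mol v n) := by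
  obtain ⟨C, hC⟩ := v_bound hK.continuous h0
  refine LipschitzWith.of_dist_le_mul fun x y => ?_
  rw [dist_eq_norm, dist_eq_norm]
  unfold mol
  have hi : ∀ z : V, Integrable (fun t => (bmp n).normed volume t • v (z - t)) := fun z =>
    integrable_mol hK.continuous.aestronglyMeasurable hC n z
  rw [← integral_sub (hi x) (hi y)]
  refine (norm_integral_le_integral_norm _).trans ?_
  have h1 : ∫ t, (bmp n).normed (volume : Measure V) t * (K * ‖x - y‖) = K * ‖x - y‖ := by
    rw [integral_mul_const, ContDiffBump.integral_normed, one_mul]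
  rw [← h1]
  refine integral_mono ((hi x).sub (hi y)).norm ((integrable_bmp n).mul_const _) fun t => ?_
  simp only
  rw [← smul_sub, norm_smul, Real.norm_eq_abs, abs_of_nonneg ((bmp n).nonneg_normed t)]
  refine mul_le_mul_of_nonneg_left ?_ ((bmp n).nonneg_normed t)
  have := hK.dist_le_mul (x - t) (y - t)
  rw [dist_eq_norm, dist_eq_norm] at this
  simpa using this

theorem mol_zero (h0 : ∀ x, (∃ i, x i ≤ 1 / 4 ∨ 3 / 4 ≤ x i) → v x = 0) (n : ℕ) (x : V)
    (hx : ∃ i, x i ≤ 0 ∨ 1 ≤ x i) : mol v n x = 0 := by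
  unfold mol
  refine integral_eq_zero_of_ae (Eventually.of_forall fun t => ?_)
  simp only [Pi.zero_apply]
  by_cases ht : (bmp n).normed volume t = 0
  · rw [ht, zero_smul]
  · have h1 := bmp_zero ht
    obtain ⟨i, hi⟩ := hx
    have h2 := h1 i
    rw [abs_lt] at h2
    rw [h0 (x - t), smul_zero]
    refine ⟨i, ?_⟩
    rw [Pi.sub_apply]
    rcases hi with hi | hi
    · left; linarith
    · right; linarith

theorem mol_hasFDerivAt (hK : LipschitzWith K v)
    (h0 : ∀ x, (∃ i, x i ≤ 1 / 4 ∨ 3 / 4 ≤ x i) → v x = 0) (n : ℕ) (x : V) :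
    Integrable (fun t => (bmp n).normed volume t • fderiv ℝ v (x - t)) ∧
    HasFDerivAt (mol v n) (∫ t, (bmp n).normed volume t • fderiv ℝ v (x - t)) x := by
  obtain ⟨C, hC⟩ := v_bound hK.continuous h0
  have hi : ∀ z : V, Integrable (fun t => (bmp n).normed volume t • v (z - t)) := fun z =>
    integrable_mol hK.continuous.aestronglyMeasurable hC n z
  refine hasFDerivAt_integral_of_dominated_loc_of_lip (s := univ)
    (bound := fun t => (bmp n).normed volume t * K) univ_mem
    (Eventually.of_forall fun z => (hi z).aestronglyMeasurable) (hi x) ?_ ?_ ?_ ?_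
  · refine ((bmp n).continuous_normed.aestronglyMeasurable).smul ?_
    exact ((measurable_fderiv ℝ v).comp
      (measurable_const.sub measurable_id)).aestronglyMeasurable
  · refine Eventually.of_forall fun t => ?_
    refine LipschitzWith.lipschitzOnWith ?_
    refine LipschitzWith.of_dist_le_mul fun y z => ?_
    rw [dist_eq_norm, dist_eq_norm, ← smul_sub, norm_smul, Real.norm_eq_abs,
      abs_of_nonneg ((bmp n).nonneg_normed t), Real.coe_nnabs,
      abs_of_nonneg (mul_nonneg ((bmp n).nonneg_normed t) K.coe_nonneg), mul_assoc]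
    refine mul_le_mul_of_nonneg_left ?_ ((bmp n).nonneg_normed t)
    have := hK.dist_le_mul (y - t) (z - t)
    rw [dist_eq_norm, dist_eq_norm] at this
    simpa using this
  · exact (integrable_bmp n).mul_const _
  · have hd : ∀ᵐ y ∂(volume : Measure V), DifferentiableAt ℝ v y := hK.ae_differentiableAt
    have hd2 := (quasiMeasurePreserving_sub_left (volume : Measure V) x).ae hd
    filter_upwards [hd2] with t ht
    have h1 : HasFDerivAt (fun y : V => y - t) (ContinuousLinearMap.id ℝ V) x :=
      (hasFDerivAt_id x).sub_const t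
    have h2 := ht.hasFDerivAt.comp x h1
    rw [ContinuousLinearMap.comp_id] at h2
    exact h2.const_smul ((bmp n).normed volume t)

theorem measurable_gr (v : V → V) (r l : Fin 2) : Measurable (fun x => gr v x r l) := by
  have h2 : Continuous (fun L : V →L[ℝ] V => L (Pi.single l 1) r) := by fun_prop
  exact h2.measurable.comp (measurable_fderiv ℝ v)

theorem gr_mol (hK : LipschitzWith K v)
    (h0 : ∀ x, (∃ i, x i ≤ 1 / 4 ∨ 3 / 4 ≤ x i) → v x = 0) (n : ℕ) (x : V) (r l : Fin 2) :
    gr (mol v n) x r l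
      = ((bmp n).normed volume ⋆[ContinuousLinearMap.lsmul ℝ ℝ, volume] fun y => gr v y r l) x := by
  obtain ⟨hi, hd⟩ := mol_hasFDerivAt hK h0 n x
  rw [convolution_lsmul]
  unfold gr
  rw [hd.fderiv]
  have hL : ∀ L : V →L[ℝ] V, L (Pi.single l 1) r
      = ((ContinuousLinearMap.proj (R := ℝ) (φ := fun _ : Fin 2 => ℝ) r).comp
        (ContinuousLinearMap.apply ℝ V (Pi.single l 1 : V))) L := fun L => rfl
  rw [hL, ← ContinuousLinearMap.integral_comp_comm _ hi]
  rfl

theorem ae_gr_mol (hK : LipschitzWith K v)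
    (h0 : ∀ x, (∃ i, x i ≤ 1 / 4 ∨ 3 / 4 ≤ x i) → v x = 0) :
    ∀ᵐ x ∂(volume : Measure V), Tendsto (fun n => gr (mol v n) x) atTop (𝓝 (gr v x)) := by
  have h1 : ∀ r l, ∀ᵐ x ∂(volume : Measure V),
      Tendsto (fun n => gr (mol v n) x r l) atTop (𝓝 (gr v x r l)) := by
    intro r l
    simp only [gr_mol hK h0]
    refine ContDiffBump.ae_convolution_tendsto_right_of_locallyIntegrable (K := 2) ?_ ?_ ?_
    · change Tendsto (fun n : ℕ => 1 / ((n : ℝ) + 8)) atTop (𝓝 0)
      refine tendsto_const_nhds.div_atTop ?_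
      exact tendsto_atTop_add_const_right _ _ tendsto_natCast_atTop_atTop
    · refine Eventually.of_forall fun n => ?_
      change 1 / ((n : ℝ) + 8) ≤ 2 * (1 / (2 * ((n : ℝ) + 8)))
      have : (0:ℝ) < (n : ℝ) + 8 := by positivity
      field_simp
      exact le_rfl
    · intro x
      refine ⟨Metric.ball x 1, Metric.ball_mem_nhds x one_pos, ?_⟩
      refine Measure.integrableOn_of_bounded (M := (K : ℝ)) measure_ball_lt_top.ne
        (measurable_gr v r l).aestronglyMeasurable ?_
      exact Eventually.of_forall fun y => gr_bound hK y r l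
  filter_upwards [h1 0 0, h1 0 1, h1 1 0, h1 1 1] with x a b c d
  rw [tendsto_pi_nhds]
  intro r
  rw [tendsto_pi_nhds]
  intro l
  fin_cases r <;> fin_cases l
  · exact a
  · exact b
  · exact c
  · exact d

theorem lip_case {W : E → ℝ} (hW : Continuous W) (h : QCtrig W) (F₀ : E) (hK : LipschitzWith K v)
    (h0 : ∀ x, (∃ i, x i ≤ 1 / 4 ∨ 3 / 4 ≤ x i) → v x = 0) :
    W F₀ ≤ ∫ x in Icc (0 : V) 1, W (F₀ + gr v x) := by
  obtain ⟨C, hC⟩ := W_bound hW F₀ (K : ℝ)
  have hlim : Tendsto (fun n => ∫ x in Icc (0 : V) 1, W (F₀ + gr (mol v n) x)) atTop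
      (𝓝 (∫ x in Icc (0 : V) 1, W (F₀ + gr v x))) := by
    refine tendsto_integral_of_dominated_convergence (fun _ => C) ?_ ?_ ?_ ?_
    · intro n
      exact (hW.comp (continuous_const.add
        (continuous_gr (mol_contDiff hK n)))).aestronglyMeasurable
    · exact continuous_const.integrableOn_Icc
    · intro n
      refine Eventually.of_forall fun x => ?_
      exact hC _ fun r l => gr_bound (mol_lipschitz hK h0 n) x r l
    · filter_upwards [ae_restrict_of_ae (ae_gr_mol hK h0)] with x hx
      exact ((hW.comp (continuous_const.add continuous_id)).tendsto _).comp hx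
  refine ge_of_tendsto' hlim fun n => ?_
  exact C1_case hW h F₀ (mol v n) (mol_contDiff hK n) (mol_lipschitz hK h0 n)
    (fun x hx => mol_zero h0 n x hx)

end Pool.Agent.W779.Morrey
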