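import Pool.Agent.W779.Morrey.C1case

set_option autoImplicit false

open MeasureTheory Set Filter Topology

namespace Pool.Agent.W779.Morrey

/-- second derivative from a polynomial expansion on the line -/
theorem hess_of_poly {W : E → ℝ} (hW : ContDiff ℝ 2 W) (F G : E) (e0 e1 e2 e3 e4 : ℝ)
    (h : ∀ t : ℝ, W (F + t • G) = e0 + e1 * t + e2 * t ^ 2 + e3 * t ^ 3 + e4 * t ^ 4) :
    fderiv ℝ (fderiv ℝ W) F G G = 2 * e2 := by
  have hP1 : ContDiff ℝ 1 (fderiv ℝ W) := hW.fderiv_right (by norm_num)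
  have hline : ∀ t : ℝ, HasDerivAt (fun t : ℝ => F + t • G) G t := by
    intro t
    have := ((hasDerivAt_id t).smul_const G).const_add F
    simpa using this
  have h1 : ∀ t : ℝ, fderiv ℝ W (F + t • G) G = e1 + 2 * e2 * t + 3 * e3 * t ^ 2 + 4 * e4 * t ^ 3 := by
    intro t
    have d1 : HasDerivAt (fun t : ℝ => W (F + t • G)) (fderiv ℝ W (F + t • G) G) t :=
      (hW.differentiable (by norm_num) _).hasFDerivAt.comp_hasDerivAt t (hline t)
    have d2 : HasDerivAt (fun t : ℝ => e0 + e1 * t + e2 * t ^ 2 + e3 * t ^ 3 + e4 * t ^ 4)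
        (e1 + 2 * e2 * t + 3 * e3 * t ^ 2 + 4 * e4 * t ^ 3) t := by
      have := ((((hasDerivAt_const t e0).add ((hasDerivAt_id t).const_mul e1)).add
        ((hasDerivAt_pow 2 t).const_mul e2)).add ((hasDerivAt_pow 3 t).const_mul e3)).add
        ((hasDerivAt_pow 4 t).const_mul e4)
      refine this.congr_deriv ?_
      norm_num
      ring
    have e : (fun t : ℝ => W (F + t • G))
        = fun t : ℝ => e0 + e1 * t + e2 * t ^ 2 + e3 * t ^ 3 + e4 * t ^ 4 := funext h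
    rw [e] at d1
    exact d1.unique d2
  have d3 : HasDerivAt (fun t : ℝ => fderiv ℝ W (F + t • G) G) (fderiv ℝ (fderiv ℝ W) F G G) 0 := by
    have h2 : HasFDerivAt (fderiv ℝ W) (fderiv ℝ (fderiv ℝ W) F) (F + (0:ℝ) • G) := by
      rw [zero_smul, add_zero]
      exact (hP1.differentiable (by norm_num) F).hasFDerivAt
    have h3 := h2.comp_hasDerivAt (0:ℝ) (hline 0)
    have h4 := h3.clm_apply (hasDerivAt_const (0:ℝ) G)
    simpa using h4
  have d4 : HasDerivAt (fun t : ℝ => e1 + 2 * e2 * t + 3 * e3 * t ^ 2 + 4 * e4 * t ^ 3) (2 * e2) 0 := by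
    have := ((((hasDerivAt_const (0:ℝ) e1).add ((hasDerivAt_id (0:ℝ)).const_mul (2 * e2))).add
        ((hasDerivAt_pow 2 (0:ℝ)).const_mul (3 * e3))).add ((hasDerivAt_pow 3 (0:ℝ)).const_mul (4 * e4)))
    refine this.congr_deriv ?_
    norm_num
  have e : (fun t : ℝ => fderiv ℝ W (F + t • G) G)
      = fun t : ℝ => e1 + 2 * e2 * t + 3 * e3 * t ^ 2 + 4 * e4 * t ^ 3 := funext h1
  rw [e] at d3
  exact d3.unique d4

/-- derivative of a one-form from a polynomial expansion on the line -/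
theorem dform_of_poly {θ : E → E →L[ℝ] ℝ} (hθ : ContDiff ℝ 1 θ) (F G H : E) (f0 f1 f2 f3 : ℝ)
    (h : ∀ t : ℝ, θ (F + t • G) H = f0 + f1 * t + f2 * t ^ 2 + f3 * t ^ 3) :
    fderiv ℝ θ F G H = f1 := by
  have hline : HasDerivAt (fun t : ℝ => F + t • G) G 0 := by
    have := ((hasDerivAt_id (0:ℝ)).smul_const G).const_add F
    simpa using this
  have d3 : HasDerivAt (fun t : ℝ => θ (F + t • G) H) (fderiv ℝ θ F G H) 0 := by
    have h2 : HasFDerivAt θ (fderiv ℝ θ F) (F + (0:ℝ) • G) := by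
      rw [zero_smul, add_zero]
      exact (hθ.differentiable (by norm_num) F).hasFDerivAt
    have h3 := h2.comp_hasDerivAt (0:ℝ) hline
    have h4 := h3.clm_apply (hasDerivAt_const (0:ℝ) H)
    simpa using h4
  have d4 : HasDerivAt (fun t : ℝ => f0 + f1 * t + f2 * t ^ 2 + f3 * t ^ 3) f1 0 := by
    have := ((((hasDerivAt_const (0:ℝ) f0).add ((hasDerivAt_id (0:ℝ)).const_mul f1)).add
        ((hasDerivAt_pow 2 (0:ℝ)).const_mul f2)).add ((hasDerivAt_pow 3 (0:ℝ)).const_mul f3))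
    refine this.congr_deriv ?_
    norm_num
  have e : (fun t : ℝ => θ (F + t • G) H) = fun t : ℝ => f0 + f1 * t + f2 * t ^ 2 + f3 * t ^ 3 :=
    funext h
  rw [e] at d3
  exact d3.unique d4

/-- entries -/
noncomputable def en (i j : Fin 2) : E →L[ℝ] ℝ :=
  (ContinuousLinearMap.proj (R := ℝ) (φ := fun _ : Fin 2 => ℝ) j).comp
    (ContinuousLinearMap.proj (R := ℝ) (φ := fun _ : Fin 2 => Fin 2 → ℝ) i)

@[simp] theorem en_apply (i j : Fin 2) (F : E) : en i j F = F i j := rfl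

noncomputable def a1 : E →L[ℝ] ℝ := (1 / 2 : ℝ) • (en 0 0 + en 1 1)
noncomputable def a2 : E →L[ℝ] ℝ := (1 / 2 : ℝ) • (en 1 0 - en 0 1)
noncomputable def b1 : E →L[ℝ] ℝ := (1 / 2 : ℝ) • (en 0 0 - en 1 1)
noncomputable def b2 : E →L[ℝ] ℝ := (1 / 2 : ℝ) • (en 1 0 + en 0 1)

theorem a1_apply (F : E) : a1 F = (F 0 0 + F 1 1) / 2 := by simp [a1]; ring
theorem a2_apply (F : E) : a2 F = (F 1 0 - F 0 1) / 2 := by simp [a2]; ring
theorem b1_apply (F : E) : b1 F = (F 0 0 - F 1 1) / 2 := by simp [b1]; ring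
theorem b2_apply (F : E) : b2 F = (F 1 0 + F 0 1) / 2 := by simp [b2]; ring

/-- squared length of the conformal part -/
noncomputable def pP (F : E) : ℝ := a1 F ^ 2 + a2 F ^ 2
/-- squared length of the anticonformal part -/
noncomputable def pQ (F : E) : ℝ := b1 F ^ 2 + b2 F ^ 2

theorem contDiff_pP {n : ℕ∞} : ContDiff ℝ n pP :=
  (a1.contDiff.pow 2).add (a2.contDiff.pow 2)

theorem contDiff_pQ {n : ℕ∞} : ContDiff ℝ n pQ :=
  (b1.contDiff.pow 2).add (b2.contDiff.pow 2)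

/-- the quartic -/
noncomputable def W4 (A B C : ℝ) (F : E) : ℝ := A * pP F ^ 2 + B * (pP F * pQ F) + C * pQ F ^ 2

theorem contDiff_W4 (A B C : ℝ) : ContDiff ℝ 2 (W4 A B C) := by
  have h1 : ContDiff ℝ 2 pP := contDiff_pP (n := 2)
  have h2 : ContDiff ℝ 2 pQ := contDiff_pQ (n := 2)
  exact ((contDiff_const.mul (h1.pow 2)).add (contDiff_const.mul (h1.mul h2))).add
    (contDiff_const.mul (h2.pow 2))

/-- the one-form -/
noncomputable def θ4 (x y z : ℝ) (F : E) : E →L[ℝ] ℝ :=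
  (-(2 * (x * pP F + y * pQ F))) • (a1 F • a2 - a2 F • a1)
    + (2 * (y * pP F + z * pQ F)) • (b1 F • b2 - b2 F • b1)

theorem contDiff_θ4 (x y z : ℝ) : ContDiff ℝ 1 (θ4 x y z) := by
  have h1 : ContDiff ℝ 1 pP := contDiff_pP (n := 1)
  have h2 : ContDiff ℝ 1 pQ := contDiff_pQ (n := 1)
  have k1 : ContDiff ℝ 1 (fun F : E => -(2 * (x * pP F + y * pQ F))) :=
    (contDiff_const.mul ((contDiff_const.mul h1).add (contDiff_const.mul h2))).neg
  have k2 : ContDiff ℝ 1 (fun F : E => (2 * (y * pP F + z * pQ F))) :=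
    (contDiff_const.mul ((contDiff_const.mul h1).add (contDiff_const.mul h2)))
  have k3 : ContDiff ℝ 1 (fun F : E => a1 F • a2 - a2 F • a1) :=
    (a1.contDiff.smul contDiff_const).sub (a2.contDiff.smul contDiff_const)
  have k4 : ContDiff ℝ 1 (fun F : E => b1 F • b2 - b2 F • b1) :=
    (b1.contDiff.smul contDiff_const).sub (b2.contDiff.smul contDiff_const)
  exact (k1.smul k3).add (k2.smul k4)

theorem hess_W4 (A B C : ℝ) (F G : E) :
    fderiv ℝ (fderiv ℝ (W4 A B C)) F G G =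
      2 * (A * (2 * pP F * pP G + (2 * (a1 F * a1 G + a2 F * a2 G)) ^ 2)
        + B * (pP F * pQ G + pP G * pQ F
          + (2 * (a1 F * a1 G + a2 F * a2 G)) * (2 * (b1 F * b1 G + b2 F * b2 G)))
        + C * (2 * pQ F * pQ G + (2 * (b1 F * b1 G + b2 F * b2 G)) ^ 2)) := by
  refine hess_of_poly (contDiff_W4 A B C) F G (W4 A B C F)
    (A * (2 * pP F * (2 * (a1 F * a1 G + a2 F * a2 G)))
      + B * (pP F * (2 * (b1 F * b1 G + b2 F * b2 G)) + (2 * (a1 F * a1 G + a2 F * a2 G)) * pQ F)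
      + C * (2 * pQ F * (2 * (b1 F * b1 G + b2 F * b2 G)))) _
    (A * (2 * pP G * (2 * (a1 F * a1 G + a2 F * a2 G)))
      + B * (pP G * (2 * (b1 F * b1 G + b2 F * b2 G)) + (2 * (a1 F * a1 G + a2 F * a2 G)) * pQ G)
      + C * (2 * pQ G * (2 * (b1 F * b1 G + b2 F * b2 G)))) (W4 A B C G) fun t => ?_
  simp only [W4, pP, pQ, map_add, map_smul, smul_eq_mul]
  ring

theorem dform_θ4 (x y z : ℝ) (F G H : E) :
    fderiv ℝ (θ4 x y z) F G H =
      (-(2 * (x * (2 * (a1 F * a1 G + a2 F * a2 G)) + y * (2 * (b1 F * b1 G + b2 F * b2 G)))))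
        * (a1 F * a2 H - a2 F * a1 H)
      + (-(2 * (x * pP F + y * pQ F))) * (a1 G * a2 H - a2 G * a1 H)
      + (2 * (y * (2 * (a1 F * a1 G + a2 F * a2 G)) + z * (2 * (b1 F * b1 G + b2 F * b2 G))))
        * (b1 F * b2 H - b2 F * b1 H)
      + (2 * (y * pP F + z * pQ F)) * (b1 G * b2 H - b2 G * b1 H) := by
  refine dform_of_poly (contDiff_θ4 x y z) F G H (θ4 x y z F H) _
    ((-(2 * (x * pP G + y * pQ G))) * (a1 F * a2 H - a2 F * a1 H)
      + (-(2 * (x * (2 * (a1 F * a1 G + a2 F * a2 G)) + y * (2 * (b1 F * b1 G + b2 F * b2 G)))))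
        * (a1 G * a2 H - a2 G * a1 H)
      + (2 * (y * pP G + z * pQ G)) * (b1 F * b2 H - b2 F * b1 H)
      + (2 * (y * (2 * (a1 F * a1 G + a2 F * a2 G)) + z * (2 * (b1 F * b1 G + b2 F * b2 G))))
        * (b1 G * b2 H - b2 G * b1 H))
    ((-(2 * (x * pP G + y * pQ G))) * (a1 G * a2 H - a2 G * a1 H)
      + (2 * (y * pP G + z * pQ G)) * (b1 G * b2 H - b2 G * b1 H)) fun t => ?_
  simp only [θ4, pP, pQ, map_add, map_smul, smul_eq_mul, _root_.add_apply, _root_.sub_apply,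
    FunLike.coe_smul, Pi.smul_apply]
  ring

/-- the quadratic form of the certificate -/
theorem quad_nonneg {A C B : ℝ} (hA : 0 < A) (hC : 0 < C) (hB : 0 ≤ B)
    (h : B * (A + C) ≤ 3 * (A * C)) (S T X Y : ℝ) :
    0 ≤ A * S ^ 2 + C * T ^ 2 + (7 * A - 2 * B) * X ^ 2 + (7 * C - 2 * B) * Y ^ 2
      - 2 * (2 * A - B) * S * X - 2 * (2 * C - B) * T * Y + 2 * B * (S * Y + T * X)
      - 4 * B * X * Y := by
  have h3A : 0 < 3 * A - B := by
    by_contra hcon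
    push Not at hcon
    nlinarith [mul_pos hA hC, mul_nonneg hB hA.le]
  set κ := 3 * (A * C) - B * (A + C) with hκ
  have hκ0 : 0 ≤ κ := by rw [hκ]; linarith
  have hAC := mul_pos hA hC
  have hq : 0 ≤ 3 * A * X ^ 2 + 3 * C * Y ^ 2 - B * (X + Y) ^ 2 := by
    have e : (3 * A - B) * (3 * A * X ^ 2 + 3 * C * Y ^ 2 - B * (X + Y) ^ 2)
        = ((3 * A - B) * X - B * Y) ^ 2 + 3 * κ * Y ^ 2 := by rw [hκ]; ring
    have h1 : 0 ≤ (3 * A - B) * (3 * A * X ^ 2 + 3 * C * Y ^ 2 - B * (X + Y) ^ 2) := by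
      rw [e]; positivity
    by_contra hcon
    push Not at hcon
    have := mul_neg_of_pos_of_neg h3A hcon
    linarith
  set r := A * S ^ 2 + C * T ^ 2 + (7 * A - 2 * B) * X ^ 2 + (7 * C - 2 * B) * Y ^ 2
      - 2 * (2 * A - B) * S * X - 2 * (2 * C - B) * T * Y + 2 * B * (S * Y + T * X)
      - 4 * B * X * Y with hr
  have e : A * C * r = C * (A * S - (2 * A - B) * X + B * Y) ^ 2
      + A * (C * T - (2 * C - B) * Y + B * X) ^ 2
      + A * C * (3 * A * X ^ 2 + 3 * C * Y ^ 2 - B * (X + Y) ^ 2) + B * κ * (X + Y) ^ 2 := by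
    rw [hr, hκ]; ring
  have h1 : 0 ≤ A * C * r := by
    rw [e]
    have := mul_nonneg hAC.le hq
    positivity
  by_contra hcon
  push Not at hcon
  have := mul_neg_of_pos_of_neg hAC hcon
  linarith

theorem cert_W4 {A B C : ℝ} (hA : 0 < A + B / 2) (hC : 0 < C + B / 2) (hB : 0 ≤ B)
    (h : B * ((A + B / 2) + (C + B / 2)) ≤ 3 * ((A + B / 2) * (C + B / 2))) :
    HeatCert (W4 A B C) (θ4 (2 * (A - (A + B / 2) / 4)) B (2 * (C - (C + B / 2) / 4))) := by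
  intro F G₀ G₁ hG
  rw [hess_W4, hess_W4, dform_θ4, dform_θ4]
  have g0 := hG 0
  have g1 := hG 1
  have q1 := quad_nonneg hA hC hB h
    (-(a1 F * (a1 G₀ + a2 G₁) + a2 F * (a2 G₀ - a1 G₁)))
    (b1 F * (b1 G₀ - b2 G₁) + b2 F * (b2 G₀ + b1 G₁))
    (a1 F * (a1 G₀ - a2 G₁) + a2 F * (a2 G₀ + a1 G₁))
    (-(b1 F * (a1 G₀ - a2 G₁) + b2 F * (a2 G₀ + a1 G₁)))
  have q2 := quad_nonneg hA hC hB h
    (-(a2 F * (a1 G₀ + a2 G₁) - a1 F * (a2 G₀ - a1 G₁)))
    (b1 F * (b2 G₀ + b1 G₁) - b2 F * (b1 G₀ - b2 G₁))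
    (a1 F * (a2 G₀ + a1 G₁) - a2 F * (a1 G₀ - a2 G₁))
    (-(b2 F * (a1 G₀ - a2 G₁) - b1 F * (a2 G₀ + a1 G₁)))
  refine (add_nonneg q1 q2).trans (le_of_eq ?_)
  simp only [pP, pQ, a1_apply, a2_apply, b1_apply, b2_apply, ← g0, ← g1]
  ring

end Pool.Agent.W779.Morrey
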