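import Pool.Agent.W779.Morrey.Flow

set_option autoImplicit false

open MeasureTheory Set Filter Topology

namespace Pool.Agent.W779.Morrey

/-- the phase `2π k·x` -/
noncomputable def ph (k : Fin 2 → ℤ) (x : V) : ℝ := 2 * Real.pi * (k 0 * x 0 + k 1 * x 1)

/-- a trigonometric monomial with matrix coefficients -/
noncomputable def tm (k : Fin 2 → ℤ) (A B : E) (x : V) : E :=
  Real.cos (ph k x) • A + Real.sin (ph k x) • B

/-- the squared length of the frequency -/
def nk (k : Fin 2 → ℤ) : ℕ := (k 0 ^ 2 + k 1 ^ 2).toNat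

theorem nk_cast (k : Fin 2 → ℤ) : (nk k : ℝ) = (k 0 : ℝ) ^ 2 + (k 1 : ℝ) ^ 2 := by
  have h : ((nk k : ℤ)) = k 0 ^ 2 + k 1 ^ 2 := by
    unfold nk
    exact Int.toNat_of_nonneg (by positivity)
  have h2 : (((nk k : ℤ)) : ℝ) = ((k 0 ^ 2 + k 1 ^ 2 : ℤ) : ℝ) := by rw [h]
  push_cast at h2
  exact h2

theorem nk_eq_zero {k : Fin 2 → ℤ} (h : nk k = 0) : k 0 = 0 ∧ k 1 = 0 := by
  have h1 := nk_cast k
  rw [h] at h1
  have h2 : (k 0 : ℝ) ^ 2 = 0 := by
    have := sq_nonneg (k 0 : ℝ)
    have := sq_nonneg (k 1 : ℝ)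
    push_cast at h1
    linarith
  have h3 : (k 1 : ℝ) ^ 2 = 0 := by
    have := sq_nonneg (k 0 : ℝ)
    push_cast at h1
    linarith
  constructor
  · exact_mod_cast pow_eq_zero_iff (two_ne_zero) |>.1 h2
  · exact_mod_cast pow_eq_zero_iff (two_ne_zero) |>.1 h3

theorem hasFDerivAt_ph (k : Fin 2 → ℤ) (x : V) :
    HasFDerivAt (ph k) (mk' fun j => (2 * Real.pi * k j : ℝ)) x := by
  have h0 : HasFDerivAt (fun x : V => x 0)
      (ContinuousLinearMap.proj (R := ℝ) (φ := fun _ : Fin 2 => ℝ) 0) x :=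
    (ContinuousLinearMap.proj (R := ℝ) (φ := fun _ : Fin 2 => ℝ) 0).hasFDerivAt
  have h1 : HasFDerivAt (fun x : V => x 1)
      (ContinuousLinearMap.proj (R := ℝ) (φ := fun _ : Fin 2 => ℝ) 1) x :=
    (ContinuousLinearMap.proj (R := ℝ) (φ := fun _ : Fin 2 => ℝ) 1).hasFDerivAt
  have h2 := ((h0.const_mul (k 0 : ℝ)).add (h1.const_mul (k 1 : ℝ))).const_mul (2 * Real.pi)
  refine h2.congr_fderiv ?_
  ext v
  simp [mk', Fin.sum_univ_two]
  ring

theorem ph_add_single (k : Fin 2 → ℤ) (x : V) (i : Fin 2) :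
    ph k (x + Pi.single i 1) = ph k x + (k i : ℤ) * (2 * Real.pi) := by
  fin_cases i <;> simp [ph] <;> ring

theorem tm_periodic (k : Fin 2 → ℤ) (A B : E) (x : V) (i : Fin 2) :
    tm k A B (x + Pi.single i 1) = tm k A B x := by
  unfold tm
  rw [ph_add_single, Real.cos_add_int_mul_two_pi, Real.sin_add_int_mul_two_pi]

theorem hasFDerivAt_tm (k : Fin 2 → ℤ) (A B : E) (x : V) :
    HasFDerivAt (tm k A B)
      (mk' fun j => tm k ((2 * Real.pi * k j) • B) (-((2 * Real.pi * k j) • A)) x) x := by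
  have h1 := (hasFDerivAt_ph k x).cos.smul_const A
  have h2 := (hasFDerivAt_ph k x).sin.smul_const B
  refine (h1.add h2).congr_fderiv ?_
  ext v r l
  simp [mk', Fin.sum_univ_two, tm]
  ring

section fam

variable {ι : Type*} [Fintype ι]

/-- A trigonometric polynomial, damped by the heat factors `s ^ |k|²`. -/
noncomputable def Fam (k : ι → Fin 2 → ℤ) (A B : ι → E) (s : ℝ) (x : V) : E :=
  ∑ i, s ^ nk (k i) • tm (k i) (A i) (B i) x

theorem Fam_periodic (k : ι → Fin 2 → ℤ) (A B : ι → E) (s : ℝ) (x : V) (j : Fin 2) :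
    Fam k A B s (x + Pi.single j 1) = Fam k A B s x := by
  unfold Fam
  simp only [tm_periodic]

/-- partial derivative, cosine coefficients -/
noncomputable def dA (k : ι → Fin 2 → ℤ) (B : ι → E) (j : Fin 2) : ι → E :=
  fun i => (2 * Real.pi * k i j) • B i

/-- partial derivative, sine coefficients -/
noncomputable def dB (k : ι → Fin 2 → ℤ) (A : ι → E) (j : Fin 2) : ι → E :=
  fun i => -((2 * Real.pi * k i j) • A i)

theorem hasFDerivAt_Fam (k : ι → Fin 2 → ℤ) (A B : ι → E) (s : ℝ) (x : V) :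
    HasFDerivAt (Fam k A B s) (mk' fun j => Fam k (dA k B j) (dB k A j) s x) x := by
  have h := HasFDerivAt.fun_sum (u := Finset.univ)
    (fun (i : ι) _ => (hasFDerivAt_tm (k i) (A i) (B i) x).const_smul (s ^ nk (k i)))
  refine h.congr_fderiv ?_
  ext v r l
  simp only [mk', Fam, dA, dB, Fin.sum_univ_two, _root_.sum_apply,
    FunLike.coe_smul, _root_.add_apply, Pi.smul_apply,
    ContinuousLinearMap.smulRight_apply, ContinuousLinearMap.proj_apply, Finset.sum_apply,
    Pi.add_apply, smul_eq_mul, Finset.mul_sum, ← Finset.sum_add_distrib]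
  refine Finset.sum_congr rfl fun i _ => ?_
  ring

theorem continuous_Fam (k : ι → Fin 2 → ℤ) (A B : ι → E) (s : ℝ) : Continuous (Fam k A B s) :=
  continuous_iff_continuousAt.2 fun x => (hasFDerivAt_Fam k A B s x).continuousAt

theorem continuous_tm (k : Fin 2 → ℤ) (A B : E) : Continuous (tm k A B) :=
  continuous_iff_continuousAt.2 fun x => (hasFDerivAt_tm k A B x).continuousAt

theorem continuous_Fam_prod (k : ι → Fin 2 → ℤ) (A B : ι → E) :
    Continuous (fun p : ℝ × V => Fam k A B p.1 p.2) := by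
  unfold Fam
  refine continuous_finsetSum _ fun i _ => ?_
  exact (continuous_fst.pow _).smul ((continuous_tm _ _ _).comp continuous_snd)

/-- the derivative in the parameter -/
noncomputable def dsFam (k : ι → Fin 2 → ℤ) (A B : ι → E) (s : ℝ) (x : V) : E :=
  ∑ i, ((nk (k i) : ℝ) * s ^ (nk (k i) - 1)) • tm (k i) (A i) (B i) x

theorem hasDerivAt_Fam (k : ι → Fin 2 → ℤ) (A B : ι → E) (s : ℝ) (x : V) :
    HasDerivAt (fun s => Fam k A B s x) (dsFam k A B s x) s := by
  unfold Fam dsFam
  refine HasDerivAt.fun_sum fun i _ => ?_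
  exact (hasDerivAt_pow _ s).smul_const _

theorem continuous_dsFam_prod (k : ι → Fin 2 → ℤ) (A B : ι → E) :
    Continuous (fun p : ℝ × V => dsFam k A B p.1 p.2) := by
  unfold dsFam
  refine continuous_finsetSum _ fun i _ => ?_
  exact (continuous_const.mul (continuous_fst.pow _)).smul
    ((continuous_tm _ _ _).comp continuous_snd)

/-- the heat equation -/
theorem heat (k : ι → Fin 2 → ℤ) (A B : ι → E) (s : ℝ) (x : V) :
    Fam k (dA k (dB k A 0) 0) (dB k (dA k B 0) 0) s x
      + Fam k (dA k (dB k A 1) 1) (dB k (dA k B 1) 1) s x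
      = -(4 * Real.pi ^ 2 * s) • dsFam k A B s x := by
  unfold Fam dsFam
  rw [Finset.smul_sum, ← Finset.sum_add_distrib]
  refine Finset.sum_congr rfl fun i _ => ?_
  have h1 : s * ((nk (k i) : ℝ) * s ^ (nk (k i) - 1)) = (nk (k i) : ℝ) * s ^ (nk (k i)) := by
    rcases Nat.eq_zero_or_pos (nk (k i)) with h | h
    · simp [h]
    · obtain ⟨m, hm⟩ := Nat.exists_eq_succ_of_ne_zero h.ne'
      rw [hm]
      simp only [Nat.succ_eq_add_one, Nat.add_sub_cancel, pow_succ]
      ring
  have h2 : -(4 * Real.pi ^ 2 * s) * ((nk (k i) : ℝ) * s ^ (nk (k i) - 1))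
      = -(4 * Real.pi ^ 2) * ((k i 0 : ℝ) ^ 2 + (k i 1 : ℝ) ^ 2) * s ^ (nk (k i)) := by
    rw [← nk_cast]
    linear_combination -(4 * Real.pi ^ 2) * h1
  rw [smul_smul, h2]
  ext r l
  simp only [tm, dA, dB, Pi.add_apply, Pi.smul_apply, Pi.neg_apply, smul_eq_mul]
  ring

/-- the gradient coefficients with vector amplitudes `c` -/
def grk (k : ι → Fin 2 → ℤ) (c : ι → V) : ι → E := fun i r l => c i r * k i l

theorem Fam_zero (k : ι → Fin 2 → ℤ) (c d : ι → V) (x : V) :
    Fam k (grk k c) (grk k d) 0 x = 0 := by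
  unfold Fam
  refine Finset.sum_eq_zero fun i _ => ?_
  rcases Nat.eq_zero_or_pos (nk (k i)) with h | h
  · obtain ⟨h0, h1⟩ := nk_eq_zero h
    have hk : ∀ l, (k i l : ℝ) = 0 := by
      intro l; fin_cases l
      · simp [h0]
      · simp [h1]
    ext r l
    simp [tm, grk, hk]
  · rw [zero_pow h.ne', zero_smul]

theorem volume_cube : (volume (Icc (0 : V) 1)).toReal = 1 := by
  rw [Real.volume_Icc_pi_toReal zero_le_one]
  simp

/-- **Monotonicity along the heat flow** for gradients of trigonometric polynomials. -/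
theorem flow_mono {W : E → ℝ} {θ : E → E →L[ℝ] ℝ} (hW : ContDiff ℝ 2 W) (hθ : ContDiff ℝ 1 θ)
    (hcert : HeatCert W θ) (F₀ : E) (k : ι → Fin 2 → ℤ) (c d : ι → V) :
    W F₀ ≤ ∫ x in Icc (0 : V) 1, W (F₀ + Fam k (grk k c) (grk k d) 1 x) := by
  set A := grk k c with hA
  set B := grk k d with hB
  have hP1 : ContDiff ℝ 1 (fderiv ℝ W) := hW.fderiv_right (by norm_num)
  have hPc : Continuous (fderiv ℝ W) := hP1.continuous
  have hd : ∀ x s, HasDerivAt (fun s => W (F₀ + Fam k A B s x))
      (fderiv ℝ W (F₀ + Fam k A B s x) (dsFam k A B s x)) s := by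
    intro x s
    have h1 : HasFDerivAt W (fderiv ℝ W (F₀ + Fam k A B s x)) (F₀ + Fam k A B s x) :=
      (hW.differentiable (by norm_num) _).hasFDerivAt
    exact h1.comp_hasDerivAt s ((hasDerivAt_Fam k A B s x).const_add F₀)
  have hcont : Continuous (fun p : ℝ × V =>
      fderiv ℝ W (F₀ + Fam k A B p.1 p.2) (dsFam k A B p.1 p.2)) :=
    (hPc.comp (continuous_const.add (continuous_Fam_prod k A B))).clm_apply
      (continuous_dsFam_prod k A B)
  have hftc : ∀ x, ∫ s in (0:ℝ)..1, fderiv ℝ W (F₀ + Fam k A B s x) (dsFam k A B s x)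
      = W (F₀ + Fam k A B 1 x) - W F₀ := by
    intro x
    rw [intervalIntegral.integral_eq_sub_of_hasDerivAt (fun s _ => hd x s)]
    · rw [hA, hB, Fam_zero, add_zero]
    · refine Continuous.intervalIntegrable ?_ _ _
      exact hcont.comp (continuous_id.prodMk continuous_const)
  have hint : Integrable (Function.uncurry fun (s : ℝ) (x : V) =>
      fderiv ℝ W (F₀ + Fam k A B s x) (dsFam k A B s x))
      ((volume.restrict (Set.uIoc (0:ℝ) 1)).prod (volume.restrict (Icc (0 : V) 1))) := by
    rw [Measure.prod_restrict]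
    have h1 : IntegrableOn (Function.uncurry fun (s : ℝ) (x : V) =>
      fderiv ℝ W (F₀ + Fam k A B s x) (dsFam k A B s x)) (Icc (0:ℝ) 1 ×ˢ Icc (0:V) 1)
      (volume.prod volume) := by
      refine ContinuousOn.integrableOn_compact (isCompact_Icc.prod isCompact_Icc) ?_
      exact hcont.continuousOn
    refine h1.mono_set (Set.prod_mono ?_ le_rfl)
    rw [uIoc_of_le zero_le_one]
    exact Ioc_subset_Icc_self
  have hswap := intervalIntegral_integral_swap hint
  have hpos : 0 ≤ ∫ s in (0:ℝ)..1, ∫ x in Icc (0:V) 1,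
      fderiv ℝ W (F₀ + Fam k A B s x) (dsFam k A B s x) := by
    refine intervalIntegral.integral_nonneg_of_ae_restrict zero_le_one ?_
    rw [EventuallyLE, ae_restrict_iff' measurableSet_Icc]
    filter_upwards [Measure.ae_ne volume (0:ℝ)] with s hs0 hs
    have hs1 : 0 < s := lt_of_le_of_ne hs.1 (Ne.symm hs0)
    have hdis := dissipation hW hθ (fun x => F₀ + Fam k A B s x)
      (fun j => Fam k (dA k B j) (dB k A j) s)
      (fun j l => Fam k (dA k (dB k A j) l) (dB k (dA k B j) l) s)
      (fun x => (hasFDerivAt_Fam k A B s x).const_add F₀)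
      (fun j x => hasFDerivAt_Fam k _ _ s x)
      (fun j l => continuous_Fam k _ _ s)
      (fun x => by
        have e1 : dA k (dB k A 0) 1 = dA k (dB k A 1) 0 := by
          funext i
          simp only [dA, dB, smul_neg, smul_smul]
          ring_nf
        have e2 : dB k (dA k B 0) 1 = dB k (dA k B 1) 0 := by
          funext i
          simp only [dA, dB, smul_smul]
          ring_nf
        rw [e1, e2])
      (fun i x => by rw [Fam_periodic])
      (fun j i x => by rw [Fam_periodic])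
    have hHc : Continuous (fderiv ℝ (fderiv ℝ W)) := hP1.continuous_fderiv (by norm_num)
    have hΘc : Continuous (fderiv ℝ θ) := hθ.continuous_fderiv (by norm_num)
    have hFc : Continuous (fun x => F₀ + Fam k A B s x) :=
      continuous_const.add (continuous_Fam k A B s)
    have hGc : ∀ j, Continuous (Fam k (dA k B j) (dB k A j) s) := fun j => continuous_Fam k _ _ s
    have hG2c : ∀ j l, Continuous (Fam k (dA k (dB k A j) l) (dB k (dA k B j) l) s) :=
      fun j l => continuous_Fam k _ _ s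
    have hpc : Continuous (fun x => fderiv ℝ W (F₀ + Fam k A B s x) (dsFam k A B s x)) :=
      hcont.comp (continuous_const.prodMk continuous_id)
    have hpos2 : 0 < 4 * Real.pi ^ 2 * s := by positivity
    have hle : ∫ x in Icc (0:V) 1, -(4 * Real.pi ^ 2 * s)
        * fderiv ℝ W (F₀ + Fam k A B s x) (dsFam k A B s x) ≤ 0 := by
      refine (integral_mono ?_ ?_ fun x => ?_).trans hdis.le
      · exact (continuous_const.mul hpc).integrableOn_Icc
      · refine Continuous.integrableOn_Icc ?_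
        refine Continuous.add (Continuous.add (Continuous.add ?_ ?_) (Continuous.sub ?_ ?_)) ?_
        · exact ((hHc.comp hFc).clm_apply (hGc 0)).clm_apply (hGc 0)
        · exact ((hHc.comp hFc).clm_apply (hGc 1)).clm_apply (hGc 1)
        · exact ((hΘc.comp hFc).clm_apply (hGc 0)).clm_apply (hGc 1)
        · exact ((hΘc.comp hFc).clm_apply (hGc 1)).clm_apply (hGc 0)
        · exact (hPc.comp hFc).clm_apply ((hG2c 0 0).add (hG2c 1 1))
      · have hc := hcert (F₀ + Fam k A B s x) (Fam k (dA k B 0) (dB k A 0) s x)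
          (Fam k (dA k B 1) (dB k A 1) s x) (fun r => by
            simp only [Fam, Finset.sum_apply, Pi.smul_apply, tm, dA, dB, Pi.add_apply, Pi.neg_apply,
              smul_eq_mul, hA, hB, grk]
            refine Finset.sum_congr rfl fun i _ => ?_
            ring)
        have hh := heat k A B s x
        simp only at hh ⊢
        rw [hh, map_smul, smul_eq_mul]
        linarith
    rw [integral_const_mul] at hle
    simp only [Pi.zero_apply]
    by_contra hneg
    push Not at hneg
    have := mul_pos_of_neg_of_neg (neg_lt_zero.2 hpos2) hneg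
    linarith
  have hfin : ∫ x in Icc (0 : V) 1, (W (F₀ + Fam k A B 1 x) - W F₀)
      = (∫ x in Icc (0 : V) 1, W (F₀ + Fam k A B 1 x)) - W F₀ := by
    rw [integral_sub]
    · simp [Measure.real]
    · exact (hW.continuous.comp (continuous_const.add (continuous_Fam k A B 1))).integrableOn_Icc
    · exact continuous_const.integrableOn_Icc
  have hfin2 : ∫ x in Icc (0 : V) 1, (W (F₀ + Fam k A B 1 x) - W F₀)
      = ∫ s in (0:ℝ)..1, ∫ x in Icc (0:V) 1,
      fderiv ℝ W (F₀ + Fam k A B s x) (dsFam k A B s x) := by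
    rw [hswap]
    exact integral_congr_ae (Eventually.of_forall fun x => (hftc x).symm)
  linarith

end fam

end Pool.Agent.W779.Morrey
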